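import Pool.Agent.Q99.PC.Defs

namespace Pool.Agent.Q99.PC

/-- planar computation: circumcentre of the chord `0, (D, G)` on the right -/
theorem centre {r' D G : ℝ} (hG : 0 < G) (hD : 0 ≤ D) (h1 : 4 ≤ D ^ 2 + G ^ 2)
    (h2 : D ^ 2 + G ^ 2 ≤ 2 * r' * G) (hr : 0 < r') :
    ∃ X Y : ℝ, D ≤ X ∧ X ^ 2 + Y ^ 2 = r' ^ 2 ∧ (X - D) ^ 2 + (Y - G) ^ 2 = r' ^ 2 := by
  set S := D ^ 2 + G ^ 2 with hS
  have hSpos : 0 < S := by positivity
  have hSr : S ≤ 4 * r' ^ 2 := by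
    have : G ≤ 2 * r' := by
      have h3 : G ^ 2 ≤ 2 * r' * G := by nlinarith [sq_nonneg D]
      nlinarith
    nlinarith
  -- t = h / R, t² = r'^2 / S - 1/4
  have ht0 : 0 ≤ r' ^ 2 / S - 1 / 4 := by
    rw [sub_nonneg, div_le_div_iff₀ (by norm_num) hSpos]; linarith
  set t := Real.sqrt (r' ^ 2 / S - 1 / 4) with ht
  have htsq : t ^ 2 = r' ^ 2 / S - 1 / 4 := Real.sq_sqrt ht0
  have htS : t ^ 2 * S = r' ^ 2 - S / 4 := by
    rw [htsq]; field_simp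
  refine ⟨D / 2 + t * G, G / 2 - t * D, ?_, ?_, ?_⟩
  · -- D/2 ≤ t G
    have : (D / 2) ^ 2 ≤ (t * G) ^ 2 := by
      have h5 : (D / 2) ^ 2 * S ≤ (t * G) ^ 2 * S := by
        have : (t * G) ^ 2 * S = (r' ^ 2 - S / 4) * G ^ 2 := by
          rw [← htS]; ring
        rw [this]
        have h6 : S ^ 2 ≤ (2 * r' * G) ^ 2 := by
          apply pow_le_pow_left₀ hSpos.le h2
        nlinarith
      exact le_of_mul_le_mul_right h5 hSpos
    have h7 : D / 2 ≤ t * G := abs_le_of_sq_le_sq' this (by positivity) |>.2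
    linarith
  · have : (D / 2 + t * G) ^ 2 + (G / 2 - t * D) ^ 2 = S / 4 + t ^ 2 * S := by rw [hS]; ring
    rw [this, htS]; ring
  · have : (D / 2 + t * G - D) ^ 2 + (G / 2 - t * D - G) ^ 2 = S / 4 + t ^ 2 * S := by
      rw [hS]; ring
    rw [this, htS]; ring

variable {E H : Type*} [NormedAddCommGroup E] [NormedSpace ℝ E] [NormedAddCommGroup H]
  [InnerProductSpace ℝ H]

open scoped RealInnerProductSpace

theorem four_thirds_sq : (2 / Real.sqrt 3) ^ 2 = 4 / 3 := by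
  rw [div_pow, Real.sq_sqrt (by norm_num)]; norm_num

/-- **Lower bound.** In `E ⊕₂ H` (`E` a nonzero normed space, `H` a nonzero inner product space)
no 2-separated set is `r`-dense for `r < 2 / √3`. -/
theorem lower [Nontrivial E] [Nontrivial H] {P : Set (WithLp 2 (E × H))} {r : ℝ}
    (hsep : Sep2 P) (hden : RhoDense r P) : 2 / Real.sqrt 3 ≤ r := by
  by_contra hlt
  push Not at hlt
  have h3 : 0 < Real.sqrt 3 := by positivity
  -- choose r' 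
  obtain ⟨r', hr1, hr2, hr0⟩ : ∃ r' : ℝ, r < r' ∧ r' < 2 / Real.sqrt 3 ∧ 0 < r' := by
    refine ⟨(max r 0 + 2 / Real.sqrt 3) / 2, ?_, ?_, ?_⟩
    · have := le_max_left r 0
      linarith
    · have : max r 0 < 2 / Real.sqrt 3 := max_lt hlt (by positivity)
      linarith
    · have := le_max_right r 0
      have h4 : 0 < 2 / Real.sqrt 3 := by positivity
      linarith
  have hr'sq : r' ^ 2 < 4 / 3 := by
    rw [← four_thirds_sq]
    exact pow_lt_pow_left₀ hr2 hr0.le (by norm_num)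
  obtain ⟨g, hg⟩ : ∃ g : E, ‖g‖ = 1 := exists_norm_eq E zero_le_one
  obtain ⟨z, hz⟩ : ∃ z : H, ‖z‖ = 1 := exists_norm_eq H zero_le_one
  -- p0
  obtain ⟨p0, hp0, -⟩ := hden 0
  -- p1
  obtain ⟨p1, hp1, hd1⟩ := hden (p0 + WithLp.toLp 2 (0, r' • z))
  have hr_nonneg : 0 ≤ r := le_trans (norm_nonneg _) hd1
  have hrr : r ^ 2 < r' ^ 2 := pow_lt_pow_left₀ hr1 hr_nonneg (by norm_num)
  set w : E := p1.fst - p0.fst with hw
  set u : H := p1.snd - p0.snd with hu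
  have hne1 : p1 ≠ p0 := by
    rintro rfl
    have : ‖p1 + WithLp.toLp 2 ((0 : E), r' • z) - p1‖ = r' := by
      rw [add_sub_cancel_left, WithLp.norm_toLp_snd, norm_smul, hz, Real.norm_of_nonneg hr0.le,
        mul_one]
    rw [this] at hd1
    linarith
  have hd1sq : ‖w‖ ^ 2 + ‖u - r' • z‖ ^ 2 ≤ r ^ 2 := by
    have h5 : ‖p0 + WithLp.toLp 2 (0, r' • z) - p1‖ ^ 2 ≤ r ^ 2 :=
      pow_le_pow_left₀ (norm_nonneg _) hd1 2
    rw [WithLp.prod_norm_sq_eq_of_L2] at h5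
    have e1 : (p0 + WithLp.toLp 2 (0, r' • z) - p1).fst = - w := by
      simp [hw]
    have e2 : (p0 + WithLp.toLp 2 (0, r' • z) - p1).snd = - (u - r' • z) := by
      simp [hu]; abel
    rw [e1, e2, norm_neg, norm_neg] at h5
    exact h5
  have hR4 : 4 ≤ ‖w‖ ^ 2 + ‖u‖ ^ 2 := by
    have h5 := hsep p1 hp1 p0 hp0 hne1
    have h6 : (2 : ℝ) ^ 2 ≤ ‖p1 - p0‖ ^ 2 := pow_le_pow_left₀ (by norm_num) h5 2
    rw [WithLp.prod_norm_sq_eq_of_L2] at h6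
    have e1 : (p1 - p0).fst = w := by simp [hw]
    have e2 : (p1 - p0).snd = u := by simp [hu]
    rw [e1, e2] at h6
    linarith
  have hlens : ‖w‖ ^ 2 + ‖u‖ ^ 2 ≤ 2 * r' * ‖u‖ := by
    have h7 : (‖u‖ - r') ^ 2 ≤ ‖u - r' • z‖ ^ 2 := by
      have h8 : |‖u‖ - ‖r' • z‖| ≤ ‖u - r' • z‖ := abs_norm_sub_norm_le _ _
      rw [norm_smul, hz, Real.norm_of_nonneg hr0.le, mul_one] at h8
      calc (‖u‖ - r') ^ 2 = |‖u‖ - r'| ^ 2 := (sq_abs _).symm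
        _ ≤ _ := pow_le_pow_left₀ (abs_nonneg _) h8 2
    nlinarith
  have hG : 0 < ‖u‖ := by
    by_contra h
    have h0 : ‖u‖ = 0 := le_antisymm (not_lt.1 h) (norm_nonneg _)
    rw [h0] at hlens hR4
    nlinarith
  obtain ⟨X, Y, hX, hc0, hc1⟩ := centre hG (norm_nonneg w) hR4 hlens hr0
  -- unit vectors
  set uh : H := (‖u‖)⁻¹ • u with huh
  have huh1 : ‖uh‖ = 1 := by
    rw [huh, norm_smul, norm_inv, norm_norm, inv_mul_cancel₀ hG.ne']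
  have huu : u = ‖u‖ • uh := by
    rw [huh, smul_smul, mul_inv_cancel₀ hG.ne', one_smul]
  obtain ⟨wh, hwh1, hww⟩ : ∃ wh : E, ‖wh‖ = 1 ∧ w = ‖w‖ • wh := by
    by_cases h0 : w = 0
    · exact ⟨g, hg, by simp [h0]⟩
    · have hp : 0 < ‖w‖ := norm_pos_iff.2 h0
      refine ⟨(‖w‖)⁻¹ • w, ?_, ?_⟩
      · rw [norm_smul, norm_inv, norm_norm, inv_mul_cancel₀ hp.ne']
      · rw [smul_smul, mul_inv_cancel₀ hp.ne', one_smul]
  have hX0 : 0 ≤ X := le_trans (norm_nonneg _) hX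
  -- the point x'
  set x' : WithLp 2 (E × H) := p0 + WithLp.toLp 2 (X • wh, Y • uh) with hx'
  have hx'0 : ‖x' - p0‖ ^ 2 = r' ^ 2 := by
    rw [hx', add_sub_cancel_left, WithLp.prod_norm_sq_eq_of_L2]
    show ‖X • wh‖ ^ 2 + ‖Y • uh‖ ^ 2 = r' ^ 2
    rw [norm_smul, norm_smul, hwh1, huh1, mul_one, mul_one, Real.norm_eq_abs, Real.norm_eq_abs,
      sq_abs, sq_abs, hc0]
  have hx'1 : ‖x' - p1‖ ^ 2 = r' ^ 2 := by
    rw [WithLp.prod_norm_sq_eq_of_L2]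
    have e1 : (x' - p1).fst = (X - ‖w‖) • wh := by
      rw [sub_smul, ← hww, hw, hx']; simp; abel
    have e2 : (x' - p1).snd = (Y - ‖u‖) • uh := by
      rw [sub_smul, ← huu, hu, hx']; simp; abel
    rw [e1, e2, norm_smul, norm_smul, hwh1, huh1, mul_one, mul_one, Real.norm_eq_abs,
      Real.norm_eq_abs, sq_abs, sq_abs, hc1]
  obtain ⟨p2, hp2, hd2⟩ := hden x'
  have hd2sq : ‖x' - p2‖ ^ 2 ≤ r ^ 2 := pow_le_pow_left₀ (norm_nonneg _) hd2 2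
  have hne20 : p2 ≠ p0 := by
    rintro rfl
    linarith
  have hne21 : p2 ≠ p1 := by
    rintro rfl
    linarith
  set wa : E := p2.fst - x'.fst with hwa
  set vb : H := p2.snd - x'.snd with hvb
  have hab : ‖wa‖ ^ 2 + ‖vb‖ ^ 2 ≤ r ^ 2 := by
    rw [WithLp.prod_norm_sq_eq_of_L2] at hd2sq
    have e1 : (x' - p2).fst = - wa := by simp [hwa]
    have e2 : (x' - p2).snd = - vb := by simp [hvb]
    rw [e1, e2, norm_neg, norm_neg] at hd2sq
    exact hd2sq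
  have h20 : 4 ≤ (‖wa‖ + X) ^ 2 + ‖vb + Y • uh‖ ^ 2 := by
    have h5 := hsep p2 hp2 p0 hp0 hne20
    have h6 : (2 : ℝ) ^ 2 ≤ ‖p2 - p0‖ ^ 2 := pow_le_pow_left₀ (by norm_num) h5 2
    rw [WithLp.prod_norm_sq_eq_of_L2] at h6
    have e1 : (p2 - p0).fst = wa + X • wh := by rw [hwa, hx']; simp; abel
    have e2 : (p2 - p0).snd = vb + Y • uh := by rw [hvb, hx']; simp; abel
    rw [e1, e2] at h6
    have h7 : ‖wa + X • wh‖ ≤ ‖wa‖ + X := by
      refine (norm_add_le _ _).trans ?_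
      rw [norm_smul, hwh1, mul_one, Real.norm_of_nonneg hX0]
    have h8 : ‖wa + X • wh‖ ^ 2 ≤ (‖wa‖ + X) ^ 2 := pow_le_pow_left₀ (norm_nonneg _) h7 2
    linarith
  have h21 : 4 ≤ (‖wa‖ + (X - ‖w‖)) ^ 2 + ‖vb + (Y - ‖u‖) • uh‖ ^ 2 := by
    have h5 := hsep p2 hp2 p1 hp1 hne21
    have h6 : (2 : ℝ) ^ 2 ≤ ‖p2 - p1‖ ^ 2 := pow_le_pow_left₀ (by norm_num) h5 2
    rw [WithLp.prod_norm_sq_eq_of_L2] at h6
    have e1 : (p2 - p1).fst = wa + (X - ‖w‖) • wh := by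
      rw [sub_smul, ← hww, hwa, hw, hx']; simp; abel
    have e2 : (p2 - p1).snd = vb + (Y - ‖u‖) • uh := by
      rw [sub_smul, ← huu, hvb, hu, hx']; simp; abel
    rw [e1, e2] at h6
    have h7 : ‖wa + (X - ‖w‖) • wh‖ ≤ ‖wa‖ + (X - ‖w‖) := by
      refine (norm_add_le _ _).trans ?_
      rw [norm_smul, hwh1, mul_one, Real.norm_of_nonneg (by linarith)]
    have h8 : ‖wa + (X - ‖w‖) • wh‖ ^ 2 ≤ (‖wa‖ + (X - ‖w‖)) ^ 2 :=
      pow_le_pow_left₀ (norm_nonneg _) h7 2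
    linarith
  set β : ℝ := ⟪vb, uh⟫ with hβ
  have hexp : ∀ c : ℝ, ‖vb + c • uh‖ ^ 2 = ‖vb‖ ^ 2 + 2 * c * β + c ^ 2 := by
    intro c
    rw [norm_add_sq_real, real_inner_smul_right, norm_smul, huh1, mul_one, Real.norm_eq_abs,
      sq_abs, hβ]
    ring
  rw [hexp] at h20 h21
  have hββ : β ^ 2 ≤ ‖vb‖ ^ 2 := by
    have h9 : |β| ≤ ‖vb‖ * ‖uh‖ := abs_real_inner_le_norm vb uh
    rw [huh1, mul_one] at h9
    rw [← sq_abs β]
    exact pow_le_pow_left₀ (abs_nonneg _) h9 2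
  nlinarith [sq_nonneg (-X + (‖w‖ - X) + ‖wa‖), sq_nonneg (-Y + (‖u‖ - Y) + β)]

end Pool.Agent.Q99.PC
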