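import Pool.Agent.Q99.PC.StepH
import Pool.Agent.Q99.PC.Lower

namespace Pool.Agent.Q99.PC

open Finset

/-- rational finitely supported sequences -/
noncomputable def ratSeq (p : ENNReal) (c : Σ n : ℕ, (Fin n → ℚ)) : lp (fun _ : ℕ => ℝ) p :=
  ∑ i : Fin c.1, lp.single p (i : ℕ) ((c.2 i : ℚ) : ℝ)

theorem ratSeq_supp (p : ENNReal) (c : Σ n : ℕ, (Fin n → ℚ)) (i : ℕ) (hi : c.1 ≤ i) :
    (ratSeq p c) i = 0 := by
  show (∑ j : Fin c.1, lp.single p (j : ℕ) ((c.2 j : ℚ) : ℝ) : lp (fun _ : ℕ => ℝ) p) i = 0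
  rw [lp.coeFn_sum, Finset.sum_apply]
  refine Finset.sum_eq_zero fun j _ => ?_
  exact lp.single_apply_ne _ _ _ (by have := j.2; omega)

theorem ratSeq_dense (p : ENNReal) [Fact (1 ≤ p)] (hp : p ≠ ⊤) (x : lp (fun _ : ℕ => ℝ) p)
    {ε : ℝ} (hε : 0 < ε) : ∃ c, ‖x - ratSeq p c‖ < ε := by
  have hp0 : 0 < p := lt_of_lt_of_le zero_lt_one (Fact.out : (1 : ENNReal) ≤ p)
  have hsum : HasSum (fun i : ℕ => lp.single p i (x i)) x := lp.hasSum_single hp x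
  have htend := hsum.tendsto_sum_nat
  obtain ⟨n, hn⟩ := ((Metric.tendsto_atTop.1 htend) (ε / 2) (by linarith))
  have hn := hn n le_rfl
  rw [dist_eq_norm] at hn
  have hq : ∀ i : Fin n, ∃ q : ℚ, |x i - q| < ε / (2 * (n + 1)) := fun i =>
    exists_rat_near (x i) (show (0 : ℝ) < ε / (2 * (n + 1)) by positivity)
  choose q hq using hq
  refine ⟨⟨n, q⟩, ?_⟩
  have e1 : (∑ i ∈ range n, lp.single p i (x i) : lp (fun _ : ℕ => ℝ) p) =
      ∑ i : Fin n, lp.single p (i : ℕ) (x i) :=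
    (Fin.sum_univ_eq_sum_range (fun i : ℕ => (lp.single p i (x i) : lp (fun _ : ℕ => ℝ) p)) n).symm
  have h2 : ‖(∑ i : Fin n, lp.single p (i : ℕ) (x i) : lp (fun _ : ℕ => ℝ) p) -
      ∑ i : Fin n, lp.single p (i : ℕ) ((q i : ℚ) : ℝ)‖ ≤ ε / 2 := by
    rw [← Finset.sum_sub_distrib]
    refine (norm_sum_le _ _).trans ?_
    have h3 : ∀ i : Fin n, ‖(lp.single p (i : ℕ) (x i) : lp (fun _ : ℕ => ℝ) p) -
        lp.single p (i : ℕ) ((q i : ℚ) : ℝ)‖ ≤ ε / (2 * (n + 1)) := by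
      intro i
      rw [← lp.single_sub, lp.norm_single hp0, Real.norm_eq_abs]
      exact (hq i).le
    refine (Finset.sum_le_sum fun i _ => h3 i).trans ?_
    rw [Finset.sum_const, Finset.card_univ, Fintype.card_fin, nsmul_eq_mul]
    rw [mul_div_assoc', div_le_div_iff₀ (by positivity) (by norm_num)]
    nlinarith
  have e0 : ratSeq p ⟨n, q⟩ = ∑ i : Fin n, lp.single p (i : ℕ) ((q i : ℚ) : ℝ) := rfl
  rw [e0]
  calc ‖x - ∑ i : Fin n, lp.single p (i : ℕ) ((q i : ℚ) : ℝ)‖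
      ≤ ‖x - ∑ i ∈ range n, lp.single p i (x i)‖ +
        ‖(∑ i ∈ range n, lp.single p i (x i) : lp (fun _ : ℕ => ℝ) p) -
          ∑ i : Fin n, lp.single p (i : ℕ) ((q i : ℚ) : ℝ)‖ :=
        norm_sub_le_norm_sub_add_norm_sub _ _ _
    _ < ε / 2 + ε / 2 := by
        refine add_lt_add_of_lt_of_le ?_ ?_
        · rw [norm_sub_rev]; exact hn
        · rw [e1]; exact h2
    _ = ε := by ring

/-- `ℓ_p` is separable -/
theorem lp_separable (p : ENNReal) [Fact (1 ≤ p)] (hp : p ≠ ⊤) :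
    TopologicalSpace.SeparableSpace (lp (fun _ : ℕ => ℝ) p) := by
  refine ⟨⟨Set.range (ratSeq p), Set.countable_range _, ?_⟩⟩
  rw [Metric.dense_iff]
  intro x r hr
  obtain ⟨c, hc⟩ := ratSeq_dense p hp x hr
  exact ⟨ratSeq p c, by rw [Metric.mem_ball, dist_comm, dist_eq_norm]; exact hc, ⟨c, rfl⟩⟩

variable {H : Type*} [NormedAddCommGroup H] [InnerProductSpace ℝ H]

/-- the countable dense set used in the construction -/
noncomputable def pt [TopologicalSpace.SeparableSpace H] (c : (Σ n : ℕ, (Fin n → ℚ)) × ℕ) :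
    WithLp 2 (L1 × H) :=
  WithLp.toLp 2 (ratSeq 1 c.1, TopologicalSpace.denseSeq H c.2)

theorem pt_dense [TopologicalSpace.SeparableSpace H] (x : WithLp 2 (L1 × H)) {ε : ℝ}
    (hε : 0 < ε) : ∃ c, ‖x - pt c‖ < ε := by
  obtain ⟨c, hc⟩ := ratSeq_dense 1 (by norm_num) x.fst (show (0 : ℝ) < ε / 2 by linarith)
  obtain ⟨n, hn⟩ : ∃ n, dist x.snd (TopologicalSpace.denseSeq H n) < ε / 2 := by
    have := (TopologicalSpace.denseRange_denseSeq H).exists_dist_lt x.snd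
      (show (0 : ℝ) < ε / 2 by linarith)
    exact this
  rw [dist_eq_norm] at hn
  refine ⟨(c, n), ?_⟩
  have h3 : ‖x - pt (c, n)‖ ^ 2 < ε ^ 2 := by
    rw [WithLp.prod_norm_sq_eq_of_L2, WithLp.sub_fst, WithLp.sub_snd]
    have h4 : ‖x.fst - (pt (H := H) (c, n)).fst‖ ^ 2 ≤ (ε / 2) ^ 2 :=
      pow_le_pow_left₀ (norm_nonneg _) hc.le 2
    have h5 : ‖x.snd - (pt (H := H) (c, n)).snd‖ ^ 2 ≤ (ε / 2) ^ 2 :=
      pow_le_pow_left₀ (norm_nonneg _) hn.le 2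
    nlinarith
  exact lt_of_pow_lt_pow_left₀ 2 hε.le h3

/-- the state space -/
def State (H : Type*) [NormedAddCommGroup H] [InnerProductSpace ℝ H] (t : ℝ) : Type _ :=
  {p : ℕ × AddSubgroup (WithLp 2 (L1 × H)) // Good t p.1 p.2}

theorem next [TopologicalSpace.SeparableSpace H] {t : ℝ} (ht : t ^ 2 = 1 / 3) (ht0 : 0 < t)
    (s : State H t) (c : (Σ n : ℕ, (Fin n → ℚ)) × ℕ) :
    ∃ s' : State H t, s.1.2 ≤ s'.1.2 ∧ ∃ l ∈ s'.1.2, ‖pt c - l‖ ≤ 2 * t := by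
  obtain ⟨Λ', h1, h2, h3⟩ := step (M := max s.1.1 c.1.1) ht ht0
    (s.2.mono (le_max_left _ _)) (pt c)
    (fun i hi => ratSeq_supp 1 c.1 i ((le_max_right _ _).trans hi))
  exact ⟨⟨(_, Λ'), h2⟩, h1, h3⟩

theorem exists_enum : ∃ e : ℕ → (Σ n : ℕ, (Fin n → ℚ)) × ℕ, Function.Surjective e :=
  exists_surjective_nat _

/-- the chain of lattices -/
noncomputable def chain (H : Type*) [NormedAddCommGroup H] [InnerProductSpace ℝ H]
    [TopologicalSpace.SeparableSpace H] {t : ℝ} (ht : t ^ 2 = 1 / 3) (ht0 : 0 < t) :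
    ℕ → State H t
  | 0 => ⟨(0, ⊥), good_bot t⟩
  | n + 1 => (next ht ht0 (chain H ht ht0 n) (exists_enum.choose n)).choose

variable [TopologicalSpace.SeparableSpace H]

theorem chain_le {t : ℝ} (ht : t ^ 2 = 1 / 3) (ht0 : 0 < t) (n : ℕ) :
    (chain H ht ht0 n).1.2 ≤ (chain H ht ht0 (n + 1)).1.2 :=
  (next ht ht0 (chain H ht ht0 n) (exists_enum.choose n)).choose_spec.1

theorem chain_cover {t : ℝ} (ht : t ^ 2 = 1 / 3) (ht0 : 0 < t) (n : ℕ) :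
    ∃ l ∈ (chain H ht ht0 (n + 1)).1.2, ‖pt (exists_enum.choose n) - l‖ ≤ 2 * t :=
  (next ht ht0 (chain H ht ht0 n) (exists_enum.choose n)).choose_spec.2

theorem chain_mono {t : ℝ} (ht : t ^ 2 = 1 / 3) (ht0 : 0 < t) :
    Monotone fun n => (chain H ht ht0 n).1.2 :=
  monotone_nat_of_le_succ (chain_le ht ht0)

/-- the final lattice -/
theorem exists_lattice {t : ℝ} (ht : t ^ 2 = 1 / 3) (ht0 : 0 < t) :
    ∃ D : AddSubgroup (WithLp 2 (L1 × H)), Sep2 (D : Set (WithLp 2 (L1 × H))) ∧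
      ∀ ε > 0, RhoDense (2 * t + ε) (D : Set (WithLp 2 (L1 × H))) := by
  refine ⟨⨆ n, (chain H ht ht0 n).1.2, ?_, ?_⟩
  · intro d hd d' hd' hne
    have hmem : d - d' ∈ ⨆ n, (chain H ht ht0 n).1.2 := AddSubgroup.sub_mem _ hd hd'
    rw [AddSubgroup.mem_iSup_of_directed (chain_mono ht ht0).directed_le] at hmem
    obtain ⟨n, hn⟩ := hmem
    have h1 := ((chain H ht ht0 n).2.safe _ hn (sub_ne_zero.2 hne)).1
    have h2 : (2 : ℝ) ^ 2 ≤ ‖d - d'‖ ^ 2 := by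
      rw [WithLp.prod_norm_sq_eq_of_L2]
      linarith
    exact (abs_le_of_sq_le_sq' h2 (norm_nonneg _)).2
  · intro ε hε x
    obtain ⟨c, hc⟩ := pt_dense x hε
    obtain ⟨n, hn⟩ := exists_enum.choose_spec c
    obtain ⟨l, hl, hle⟩ := chain_cover (H := H) ht ht0 n
    rw [hn] at hle
    refine ⟨l, ?_, ?_⟩
    · exact (le_iSup (fun n => (chain H ht ht0 n).1.2) (n + 1)) hl
    · calc ‖x - l‖ ≤ ‖x - pt c‖ + ‖pt c - l‖ := norm_sub_le_norm_sub_add_norm_sub _ _ _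
        _ ≤ 2 * t + ε := by linarith

theorem nonneg_of_dense {X : Type*} [NormedAddCommGroup X] {ρ : ℝ} {D : Set X}
    (h : RhoDense ρ D) : 0 ≤ ρ := by
  obtain ⟨d, -, hd⟩ := h 0
  exact (norm_nonneg _).trans hd

instance : Nontrivial L1 := by
  refine ⟨⟨0, lp.single 1 0 1, ?_⟩⟩
  intro h
  have h1 : (0 : L1) 0 = (lp.single 1 0 (1 : ℝ) : L1) 0 := by rw [← h]
  rw [lp.single_apply_self] at h1
  simp at h1

/-- **Main theorem.** For every nonzero separable inner product space `H`,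
`γ(ℓ₁ ⊕₂ H) = γ*(ℓ₁ ⊕₂ H) = 2 / √3`. -/
theorem main (H : Type*) [NormedAddCommGroup H] [InnerProductSpace ℝ H]
    [TopologicalSpace.SeparableSpace H] [Nontrivial H] :
    gam (WithLp 2 (L1 × H)) = 2 / Real.sqrt 3 ∧ gamLat (WithLp 2 (L1 × H)) = 2 / Real.sqrt 3 := by
  have ht : (1 / Real.sqrt 3) ^ 2 = 1 / 3 := by
    rw [div_pow, Real.sq_sqrt (by norm_num)]; norm_num
  have t_eq : (2 : ℝ) * (1 / Real.sqrt 3) = 2 / Real.sqrt 3 := by ring
  obtain ⟨D, h1, h2⟩ := exists_lattice (H := H) ht (by positivity)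
  rw [t_eq] at h2
  have hA : gamLat (WithLp 2 (L1 × H)) ≤ 2 / Real.sqrt 3 := by
    refine le_of_forall_pos_le_add fun ε hε => ?_
    exact csInf_le ⟨0, fun ρ ⟨D, _, hD⟩ => nonneg_of_dense hD⟩ ⟨D, h1, h2 ε hε⟩
  have hB : gam (WithLp 2 (L1 × H)) ≤ gamLat (WithLp 2 (L1 × H)) := by
    refine csInf_le_csInf ⟨0, fun ρ ⟨D, _, hD⟩ => nonneg_of_dense hD⟩ ?_ ?_
    · exact ⟨_, D, h1, h2 1 one_pos⟩
    · rintro ρ ⟨D, hD⟩
      exact ⟨D, hD⟩
  have hC : 2 / Real.sqrt 3 ≤ gam (WithLp 2 (L1 × H)) := by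
    refine le_csInf ⟨_, D, h1, h2 1 one_pos⟩ ?_
    rintro ρ ⟨D, hD1, hD2⟩
    exact lower hD1 hD2
  constructor <;> linarith

end Pool.Agent.Q99.PC
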