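import Mathlib

namespace Pool.Agent.Q99.PC

/-- Distinct points of `D` are at distance at least two. -/
def Sep2 {X : Type*} [NormedAddCommGroup X] (D : Set X) : Prop :=
  ∀ d ∈ D, ∀ d' ∈ D, d ≠ d' → 2 ≤ ‖d - d'‖

/-- Every point is within distance `ρ` of `D`. -/
def RhoDense {X : Type*} [NormedAddCommGroup X] (ρ : ℝ) (D : Set X) : Prop :=
  ∀ x : X, ∃ d ∈ D, ‖x - d‖ ≤ ρ

/-- The simultaneous packing and covering constant. -/
noncomputable def gam (X : Type*) [NormedAddCommGroup X] : ℝ :=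
  sInf {ρ : ℝ | ∃ D : Set X, Sep2 D ∧ RhoDense ρ D}

/-- The lattice version: only additive subgroups are allowed. -/
noncomputable def gamLat (X : Type*) [NormedAddCommGroup X] : ℝ :=
  sInf {ρ : ℝ | ∃ D : AddSubgroup X, Sep2 (D : Set X) ∧ RhoDense ρ (D : Set X)}

/-- The space `ℓ₁ ⊕₂ ℝ`. -/
abbrev X1 : Type := WithLp 2 (lp (fun _ : ℕ => ℝ) 1 × ℝ)

/-- The space `ℓ₁ ⊕₂ ℓ₂`. -/
abbrev X2 : Type := WithLp 2 (lp (fun _ : ℕ => ℝ) 1 × lp (fun _ : ℕ => ℝ) 2)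

end Pool.Agent.Q99.PC
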