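import Mathlib

namespace Pool.Agent.Q99.PC

open scoped RealInnerProductSpace

/-- two linear constraints on a ball of a Hilbert space -/
theorem two_constraints {H : Type*} [NormedAddCommGroup H] [InnerProductSpace ℝ H]
    (v₁ v₂ : H) (τ₁ τ₂ β : ℝ) (hβ : 0 ≤ β)
    (h : ∀ l m : ℝ, 0 ≤ l → 0 ≤ m → l + m = 1 → l * τ₁ + m * τ₂ ≤ β * ‖l • v₁ + m • v₂‖) :
    ∃ c : H, ‖c‖ ≤ β ∧ τ₁ ≤ ⟪c, v₁⟫ ∧ τ₂ ≤ ⟪c, v₂⟫ := by
  classical
  set W : Submodule ℝ H := Submodule.span ℝ {v₁, v₂} with hW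
  have : FiniteDimensional ℝ W := FiniteDimensional.span_of_finite ℝ (Set.toFinite _)
  have : ProperSpace W := FiniteDimensional.proper ℝ W
  set Φ : W → ℝ × ℝ := fun c => (⟪(c : H), v₁⟫, ⟪(c : H), v₂⟫) with hΦ
  have hcont : Continuous Φ := by fun_prop
  have hcomp : IsCompact (Φ '' Metric.closedBall (0 : W) β) :=
    (isCompact_closedBall _ _).image hcont
  have hconv : Convex ℝ (Φ '' Metric.closedBall (0 : W) β) := by
    rintro x ⟨c, hc, rfl⟩ y ⟨d, hd, rfl⟩ a b ha hb hab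
    refine ⟨a • c + b • d, (convex_closedBall (0 : W) β) hc hd ha hb hab, ?_⟩
    simp only [hΦ, Submodule.coe_add, Submodule.coe_smul, inner_add_left, real_inner_smul_left,
      Prod.smul_mk, Prod.mk_add_mk, smul_eq_mul]
  by_contra hcon
  push Not at hcon
  have hdisj : Disjoint (Φ '' Metric.closedBall (0 : W) β) (Set.Ici τ₁ ×ˢ Set.Ici τ₂) := by
    rw [Set.disjoint_left]
    rintro x ⟨c, hc, rfl⟩ ⟨h1, h2⟩
    have hc' : ‖(c : H)‖ ≤ β := by simpa using hc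
    exact absurd h2 (not_le.2 (hcon c hc' h1))
  obtain ⟨f, u, w, hfu, huw, hfw⟩ := geometric_hahn_banach_compact_closed hconv hcomp
    ((convex_Ici τ₁).prod (convex_Ici τ₂)) (isClosed_Ici.prod isClosed_Ici) hdisj
  have hf : ∀ x y : ℝ, f (x, y) = x * f (1, 0) + y * f (0, 1) := by
    intro x y
    have : ((x, y) : ℝ × ℝ) = x • (1, 0) + y • (0, 1) := by simp
    rw [this, map_add, map_smul, map_smul]; simp
  set p := f (1, 0) with hp
  set q := f (0, 1) with hq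
  have hQ : ∀ x y : ℝ, τ₁ ≤ x → τ₂ ≤ y → w < x * p + y * q := by
    intro x y hx hy
    have := hfw (x, y) ⟨hx, hy⟩
    rwa [hf] at this
  have hB : ∀ c : H, c ∈ W → ‖c‖ ≤ β → ⟪c, v₁⟫ * p + ⟪c, v₂⟫ * q < u := by
    intro c hc hcb
    have := hfu (Φ ⟨c, hc⟩) ⟨⟨c, hc⟩, by simpa using hcb, rfl⟩
    rwa [hΦ, hf] at this
  have hp0 : 0 ≤ p := by
    by_contra hneg
    push Not at hneg
    have h1 := hQ (τ₁ + |w - (τ₁ * p + τ₂ * q)| / (-p)) τ₂
      (by have : 0 ≤ |w - (τ₁ * p + τ₂ * q)| / (-p) := div_nonneg (abs_nonneg _) (by linarith)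
          linarith) le_rfl
    have h2 : |w - (τ₁ * p + τ₂ * q)| / (-p) * p = - |w - (τ₁ * p + τ₂ * q)| := by
      rw [div_neg, neg_mul, div_mul_cancel₀ _ hneg.ne]
    have h3 := neg_abs_le (w - (τ₁ * p + τ₂ * q))
    nlinarith [le_abs_self (w - (τ₁ * p + τ₂ * q)), hQ τ₁ τ₂ le_rfl le_rfl]
  have hq0 : 0 ≤ q := by
    by_contra hneg
    push Not at hneg
    have h1 := hQ τ₁ (τ₂ + |w - (τ₁ * p + τ₂ * q)| / (-q)) le_rfl
      (by have : 0 ≤ |w - (τ₁ * p + τ₂ * q)| / (-q) := div_nonneg (abs_nonneg _) (by linarith)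
          linarith)
    have h2 : |w - (τ₁ * p + τ₂ * q)| / (-q) * q = - |w - (τ₁ * p + τ₂ * q)| := by
      rw [div_neg, neg_mul, div_mul_cancel₀ _ hneg.ne]
    have h3 := neg_abs_le (w - (τ₁ * p + τ₂ * q))
    nlinarith [le_abs_self (w - (τ₁ * p + τ₂ * q)), hQ τ₁ τ₂ le_rfl le_rfl]
  have hτ := hQ τ₁ τ₂ le_rfl le_rfl
  have h0 := hB 0 W.zero_mem (by simpa using hβ)
  simp only [inner_zero_left, zero_mul, add_zero] at h0
  have hpq : 0 < p + q := by
    by_contra hneg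
    push Not at hneg
    have hp1 : p = 0 := by linarith
    have hq1 : q = 0 := by linarith
    rw [hp1, hq1] at hτ
    linarith
  -- the combination vector
  set z : H := p • v₁ + q • v₂ with hz
  have hzW : z ∈ W := W.add_mem (W.smul_mem _ (Submodule.subset_span (by simp)))
    (W.smul_mem _ (Submodule.subset_span (by simp)))
  have hsup : β * ‖z‖ ≤ u := by
    by_cases hz0 : z = 0
    · rw [hz0, norm_zero, mul_zero]; exact h0.le
    · have hzp : 0 < ‖z‖ := norm_pos_iff.2 hz0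
      have h1 := hB ((β / ‖z‖) • z) (W.smul_mem _ hzW) (by
        rw [norm_smul, Real.norm_of_nonneg (div_nonneg hβ hzp.le), div_mul_cancel₀ _ hzp.ne'])
      have h2 : ⟪(β / ‖z‖) • z, v₁⟫ * p + ⟪(β / ‖z‖) • z, v₂⟫ * q = β * ‖z‖ := by
        have : ⟪z, z⟫ = ⟪z, v₁⟫ * p + ⟪z, v₂⟫ * q := by
          conv_lhs => rw [hz, inner_add_right, real_inner_smul_right, real_inner_smul_right]
          rw [← hz]; ring
        rw [real_inner_smul_left, real_inner_smul_left, mul_assoc, mul_assoc, ← mul_add, ← this,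
          real_inner_self_eq_norm_sq]
        field_simp
      linarith
  have hfin := h (p / (p + q)) (q / (p + q)) (div_nonneg hp0 hpq.le) (div_nonneg hq0 hpq.le)
    (by rw [← add_div, div_self hpq.ne'])
  have e1 : (p / (p + q)) • v₁ + (q / (p + q)) • v₂ = (p + q)⁻¹ • z := by
    rw [hz, smul_add, smul_smul, smul_smul, div_eq_inv_mul, div_eq_inv_mul]
  rw [e1, norm_smul, Real.norm_of_nonneg (inv_nonneg.2 hpq.le)] at hfin
  have e2 : p / (p + q) * τ₁ + q / (p + q) * τ₂ = (p + q)⁻¹ * (τ₁ * p + τ₂ * q) := by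
    rw [div_eq_inv_mul, div_eq_inv_mul]; ring
  have e3 : β * ((p + q)⁻¹ * ‖z‖) = (p + q)⁻¹ * (β * ‖z‖) := by ring
  rw [e2, e3] at hfin
  have := le_of_mul_le_mul_left hfin (inv_pos.2 hpq)
  linarith

end Pool.Agent.Q99.PC
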