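import Pool.Agent.Q99.PC.Resp

namespace Pool.Agent.Q99.PC

/-- A point with large horizontal part is safe for all directions. -/
theorem side {t a β δ e : ℝ} (ht : t ^ 2 = 1 / 3) (ht0 : 0 < t)
    (hm : a / 2 + 3 / 2 * t * β ≤ δ)
    (ha : 1 ≤ a) (ha2 : a ≤ 2 * t) (hβ : 0 ≤ β) (hβt : β ≤ t) (hab : a ^ 2 + β ^ 2 = 4 / 3)
    (he : 0 ≤ e) (h1 : 4 / 3 ≤ δ ^ 2 + e ^ 2) :
    4 ≤ (a + δ) ^ 2 + (e - β) ^ 2 := by
  have hds0 : 0 ≤ a / 2 + 3 / 2 * t * β := by positivity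
  have hδ : 0 ≤ δ := hds0.trans hm
  by_cases hδ1 : δ < 1
  · set e0 := Real.sqrt (4 / 3 - δ ^ 2) with he0
    have hδsq : δ ^ 2 < 1 := by nlinarith
    have he0sq : e0 ^ 2 = 4 / 3 - δ ^ 2 := Real.sq_sqrt (by linarith)
    have he0pos : 0 ≤ e0 := Real.sqrt_nonneg _
    have he0t : t ≤ e0 := by
      have : t ^ 2 ≤ e0 ^ 2 := by rw [ht, he0sq]; linarith
      exact (abs_le_of_sq_le_sq' this he0pos).2
    have he0e : e0 ≤ e := abs_le_of_sq_le_sq' (by rw [he0sq]; linarith) he |>.2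
    have hes0 : 0 ≤ 3 / 2 * t * a - β / 2 := by
      have : t * 1 ≤ t * a := mul_le_mul_of_nonneg_left ha ht0.le
      linarith
    have hrot : (3 / 2 * t * a - β / 2) ^ 2 + (a / 2 + 3 / 2 * t * β) ^ 2 = 4 / 3 := by
      have h9 : (3 / 2 * t * a - β / 2) ^ 2 + (a / 2 + 3 / 2 * t * β) ^ 2 =
          (a ^ 2 + β ^ 2) * (1 / 4 + 9 / 4 * t ^ 2) := by ring
      rw [h9, hab, ht]; norm_num
    have hE : e0 ≤ 3 / 2 * t * a - β / 2 := by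
      have : e0 ^ 2 ≤ (3 / 2 * t * a - β / 2) ^ 2 := by
        have h5 : (a / 2 + 3 / 2 * t * β) ^ 2 ≤ δ ^ 2 := pow_le_pow_left₀ hds0 hm 2
        linarith
      exact (abs_le_of_sq_le_sq' this hes0).2
    have hkey : 2 / 3 ≤ a * δ - β * e0 := by
      have h5 : a * (a / 2 + 3 / 2 * t * β) ≤ a * δ :=
        mul_le_mul_of_nonneg_left hm (by linarith)
      have h6 : β * e0 ≤ β * (3 / 2 * t * a - β / 2) := mul_le_mul_of_nonneg_left hE hβ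
      have h7 : a * (a / 2 + 3 / 2 * t * β) - β * (3 / 2 * t * a - β / 2) =
          (a ^ 2 + β ^ 2) / 2 := by ring
      rw [hab] at h7
      linarith
    have hmono : (e0 - β) ^ 2 ≤ (e - β) ^ 2 :=
      pow_le_pow_left₀ (by linarith) (by linarith) 2
    have h8 : (a + δ) ^ 2 + (e0 - β) ^ 2 = (a ^ 2 + β ^ 2) + δ ^ 2 + e0 ^ 2 +
      2 * (a * δ - β * e0) := by ring
    rw [hab, he0sq] at h8
    linarith
  · push Not at hδ1
    have h6 : (2 : ℝ) ^ 2 ≤ (a + δ) ^ 2 := pow_le_pow_left₀ (by norm_num) (by linarith) 2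
    linarith [sq_nonneg (e - β)]

/-- choice of the opening angle from `S = δ₁ + δ₂` -/
theorem params {t S : ℝ} (ht : t ^ 2 = 1 / 3) (ht0 : 0 < t) (hS1 : 1 ≤ S) (hS2 : S < 2 * t) :
    ∃ a β : ℝ, 1 ≤ a ∧ a ≤ 2 * t ∧ 0 ≤ β ∧ β ≤ t ∧ a ^ 2 + β ^ 2 = 4 / 3 ∧
      a / 2 + 3 / 2 * t * β = (3 - S) / 2 ∧
      a ^ 2 - a * ((3 - S) / 2) + ((3 - S) / 2) ^ 2 = 1 := by
  have hb := t_bounds ht ht0
  set m := (3 - S) / 2 with hm
  have hm1 : m ≤ 1 := by rw [hm]; linarith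
  have hm0 : 0.9 ≤ m := by rw [hm]; linarith
  have hr0 : 0 ≤ 4 - 3 * m ^ 2 := by nlinarith
  set R := Real.sqrt (4 - 3 * m ^ 2) with hR
  have hRsq : R ^ 2 = 4 - 3 * m ^ 2 := Real.sq_sqrt hr0
  have hR0 : 0 ≤ R := Real.sqrt_nonneg _
  have hR1 : 2 - m ≤ R := by
    have : (2 - m) ^ 2 ≤ R ^ 2 := by rw [hRsq]; nlinarith
    exact (abs_le_of_sq_le_sq' this hR0).2
  have hR3 : R ≤ 3 * m := by
    have : R ^ 2 ≤ (3 * m) ^ 2 := by rw [hRsq]; nlinarith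
    exact (abs_le_of_sq_le_sq' this (by linarith)).2
  have hq : ((m + R) / 2) ^ 2 - (m + R) / 2 * m + m ^ 2 = 1 := by
    have : ((m + R) / 2) ^ 2 - (m + R) / 2 * m + m ^ 2 = (R ^ 2 + 3 * m ^ 2) / 4 := by ring
    rw [this, hRsq]; ring
  have ha1 : 1 ≤ (m + R) / 2 := by linarith
  have hab : ((m + R) / 2) ^ 2 + (t * (2 * m - (m + R) / 2)) ^ 2 = 4 / 3 := by
    rw [mul_pow, ht]
    linarith
  have hβ0 : 0 ≤ t * (2 * m - (m + R) / 2) := mul_nonneg ht0.le (by linarith)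
  refine ⟨(m + R) / 2, t * (2 * m - (m + R) / 2), ha1, ?_, hβ0, ?_, hab, ?_, hq⟩
  · have : ((m + R) / 2) ^ 2 ≤ (2 * t) ^ 2 := by
      rw [mul_pow, ht]
      linarith [sq_nonneg (t * (2 * m - (m + R) / 2))]
    exact (abs_le_of_sq_le_sq' this (by linarith)).2
  · have : t * (2 * m - (m + R) / 2) ≤ t * 1 := mul_le_mul_of_nonneg_left (by linarith) ht0.le
    linarith
  · have : 3 / 2 * t * (t * (2 * m - (m + R) / 2)) = 3 / 2 * t ^ 2 * (2 * m - (m + R) / 2) := by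
      ring
    rw [this, ht]; ring

/-- bound for `a` -/
theorem a_le {S a : ℝ} (hS1 : 1 ≤ S) (ha1 : 1 ≤ a)
    (hq : a ^ 2 - a * ((3 - S) / 2) + ((3 - S) / 2) ^ 2 = 1) : a ≤ (S + 1) / 2 := by
  by_contra h
  push Not at h
  have h1 : 0 < (a - (S + 1) / 2) * (a + (S + 1) / 2 - (3 - S) / 2) :=
    mul_pos (by linarith) (by linarith)
  nlinarith [sq_nonneg (S - 1)]

/-- the key inequality -/
theorem key {S Δ a : ℝ} (hS1 : 1 ≤ S) (hS2 : S ≤ 1.156) (ha1 : 1 ≤ a) (ha2 : a ≤ (S + 1) / 2)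
    (hΔ0 : 0 ≤ Δ) (hΔ : Δ ^ 2 ≤ 4 - 3 * S ^ 2) :
    Δ ≤ 1 - 3 * (S - 1) ∧ 4 * (S - a) * (S - a + Δ) ≤ (4 - 3 * a ^ 2) * (1 - Δ ^ 2) := by
  obtain ⟨s, rfl⟩ : ∃ s, S = 1 + s := ⟨S - 1, by ring⟩
  have hs0 : 0 ≤ s := by linarith
  have hs1 : s ≤ 0.156 := by linarith
  have hΔ1 : Δ ≤ 1 - 3 * s := by
    have : Δ ^ 2 ≤ (1 - 3 * s) ^ 2 := by nlinarith
    exact (abs_le_of_sq_le_sq' this (by linarith)).2
  refine ⟨by linarith, ?_⟩
  have hz : 0 ≤ 1 + s - a := by linarith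
  have hz2 : 1 + s - a ≤ s := by linarith
  have h1 : 4 * (1 + s - a) * (1 + s - a + Δ) ≤ 4 * s * (1 - 2 * s) := by
    have h2 : (1 + s - a) * (1 + s - a + Δ) ≤ s * (1 - 2 * s) :=
      mul_le_mul hz2 (by linarith) (by linarith) hs0
    linarith
  have h3 : 1 - 3 * s - 3 / 4 * s ^ 2 ≤ 4 - 3 * a ^ 2 := by
    have : a ^ 2 ≤ ((1 + s + 1) / 2) ^ 2 := pow_le_pow_left₀ (by linarith) ha2 2
    nlinarith
  have h4 : 6 * s + 3 * s ^ 2 ≤ 1 - Δ ^ 2 := by nlinarith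
  have h5 : 0 ≤ 1 - 3 * s - 3 / 4 * s ^ 2 := by nlinarith
  have h6 : (1 - 3 * s - 3 / 4 * s ^ 2) * (6 * s + 3 * s ^ 2) ≤
      (4 - 3 * a ^ 2) * (1 - Δ ^ 2) :=
    mul_le_mul h3 h4 (by positivity) (h5.trans h3)
  have h7 : 4 * s * (1 - 2 * s) ≤ (1 - 3 * s - 3 / 4 * s ^ 2) * (6 * s + 3 * s ^ 2) := by
    have h8 : 0 ≤ 2 - 7 * s - 27 / 2 * s ^ 2 - 9 / 4 * s ^ 3 := by
      have : s ^ 2 ≤ 0.156 * s := by nlinarith
      have h9 : s ^ 3 ≤ 0.156 * s ^ 2 := by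
        have : s ^ 3 = s * s ^ 2 := by ring
        rw [this]; exact mul_le_mul_of_nonneg_right hs1 (sq_nonneg s)
      nlinarith
    have h10 : 0 ≤ s * (2 - 7 * s - 27 / 2 * s ^ 2 - 9 / 4 * s ^ 3) := mul_nonneg hs0 h8
    nlinarith
  linarith

/-- the quadratic form is nonnegative: ordered case -/
theorem form_ordered {S Δ a l m' : ℝ} (hS1 : 1 ≤ S) (hS2 : S ≤ 1.156) (ha1 : 1 ≤ a)
    (hq : a ^ 2 - a * ((3 - S) / 2) + ((3 - S) / 2) ^ 2 = 1)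
    (hΔ0 : 0 ≤ Δ) (hΔ : Δ ^ 2 ≤ 4 - 3 * S ^ 2) (hl : 0 ≤ l) (hm : 0 ≤ m') (hlm : l + m' = 1) :
    (2 / 3 - a * (l * ((S - Δ) / 2) + m' * ((S + Δ) / 2))) ^ 2 ≤
      (4 / 3 - a ^ 2) * (4 / 3 - (l * ((S - Δ) / 2) ^ 2 + m' * ((S + Δ) / 2) ^ 2) - 3 * (l * m')) := by
  have ha2 := a_le hS1 ha1 hq
  obtain ⟨hΔ1, hkey⟩ := key hS1 hS2 ha1 ha2 hΔ0 hΔ
  set m := (3 - S) / 2 with hmdef
  set n := a - m with hn
  have hmn : m * n = a ^ 2 - 1 := by rw [hn]; nlinarith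
  set x := (S - Δ) / 2 with hx
  set y := (S + Δ) / 2 with hy
  set g1 := (x - n) * (m - x) with hg1
  set g2 := (y - n) * (m - y) with hg2
  have hg2pos : 0 ≤ g2 := by
    refine mul_nonneg ?_ ?_
    · rw [hn, hmdef, hy]; linarith
    · rw [hmdef, hy]; linarith
  have hdiff : g1 - g2 = Δ * (S - a) := by
    rw [hg1, hg2, hn, hx, hy]; ring
  have hdpos : 0 ≤ g1 - g2 := by rw [hdiff]; exact mul_nonneg hΔ0 (by linarith)
  have hK : 4 - a ^ 2 * (3 + Δ ^ 2) ≤ 4 / 3 * (g1 + 3 * g2) := by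
    have e : g1 + 3 * g2 = 2 * S * a - S ^ 2 - Δ ^ 2 - 4 * (m * n) - Δ * (S - a) := by
      rw [hg1, hg2, hn, hx, hy]; ring
    rw [e, hmn]
    nlinarith
  have hid : (4 / 3 - a ^ 2) * (4 / 3 - (l * x ^ 2 + m' * y ^ 2) - 3 * (l * m')) -
      (2 / 3 - a * (l * x + m' * y)) ^ 2 =
      4 / 3 * (l * g1 + m' * g2) - l * m' * (4 - a ^ 2 * (3 + Δ ^ 2)) := by
    have hl' : l = 1 - m' := by linarith
    have e1 : g1 = 1 - a ^ 2 + a * x - x ^ 2 := by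
      have : g1 = -(m * n) + (m + n) * x - x ^ 2 := by rw [hg1]; ring
      rw [this, hmn, hn]; ring
    have e2 : g2 = 1 - a ^ 2 + a * y - y ^ 2 := by
      have : g2 = -(m * n) + (m + n) * y - y ^ 2 := by rw [hg2]; ring
      rw [this, hmn, hn]; ring
    have e3 : Δ = y - x := by rw [hx, hy]; ring
    rw [e1, e2, e3, hl']; ring
  have h4 : l * m' * (4 - a ^ 2 * (3 + Δ ^ 2)) ≤ l * m' * (4 / 3 * (g1 + 3 * g2)) :=
    mul_le_mul_of_nonneg_left hK (mul_nonneg hl hm)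
  have h5 : l * m' * (g1 + 3 * g2) ≤ l * g1 + m' * g2 := by
    have e : l * g1 + m' * g2 - l * m' * (g1 + 3 * g2) =
        g2 * (1 - 4 * (l * m')) + (g1 - g2) * (l * (1 - m')) := by
      have : l = 1 - m' := by linarith
      rw [this]; ring
    have h6 : 0 ≤ 1 - 4 * (l * m') := by
      have : l = 1 - m' := by linarith
      rw [this]; nlinarith [sq_nonneg (1 - 2 * m')]
    have h7 : 0 ≤ l * (1 - m') := mul_nonneg hl (by linarith)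
    have := mul_nonneg hg2pos h6
    have := mul_nonneg hdpos h7
    linarith
  nlinarith

/-- the quadratic form is nonnegative -/
theorem form {S a d1 d2 l m' : ℝ} (hS : d1 + d2 = S) (hS1 : 1 ≤ S) (hS2 : S ≤ 1.156) (ha1 : 1 ≤ a)
    (hq : a ^ 2 - a * ((3 - S) / 2) + ((3 - S) / 2) ^ 2 = 1)
    (hcos : d1 ^ 2 + d1 * d2 + d2 ^ 2 ≤ 1) (hl : 0 ≤ l) (hm : 0 ≤ m') (hlm : l + m' = 1) :
    (2 / 3 - a * (l * d1 + m' * d2)) ^ 2 ≤
      (4 / 3 - a ^ 2) * (4 / 3 - (l * d1 ^ 2 + m' * d2 ^ 2) - 3 * (l * m')) := by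
  rcases le_total d1 d2 with h | h
  · have h1 := form_ordered (S := S) (Δ := d2 - d1) (a := a) (l := l) (m' := m') hS1 hS2 ha1 hq
      (by linarith) (by rw [← hS]; nlinarith) hl hm hlm
    have e1 : (S - (d2 - d1)) / 2 = d1 := by rw [← hS]; ring
    have e2 : (S + (d2 - d1)) / 2 = d2 := by rw [← hS]; ring
    rwa [e1, e2] at h1
  · have h1 := form_ordered (S := S) (Δ := d1 - d2) (a := a) (l := m') (m' := l) hS1 hS2 ha1 hq
      (by linarith) (by rw [← hS]; nlinarith) hm hl (by linarith)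
    have e1 : (S - (d1 - d2)) / 2 = d2 := by rw [← hS]; ring
    have e2 : (S + (d1 - d2)) / 2 = d1 := by rw [← hS]; ring
    rw [e1, e2] at h1
    have e3 : m' * d2 + l * d1 = l * d1 + m' * d2 := by ring
    have e4 : m' * d2 ^ 2 + l * d1 ^ 2 = l * d1 ^ 2 + m' * d2 ^ 2 := by ring
    rw [e3, e4, mul_comm m' l] at h1
    exact h1

end Pool.Agent.Q99.PC
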