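import Pool.Agent.Q99.PC.Defs

namespace Pool.Agent.Q99.PC

theorem t_bounds {t : ℝ} (ht : t ^ 2 = 1 / 3) (ht0 : 0 < t) : 0.577 < t ∧ t < 0.578 := by
  constructor
  · by_contra h; push Not at h; nlinarith
  · by_contra h; push Not at h; nlinarith

/-- intermediate value: the tight direction for one point -/
theorem tight {t δ d : ℝ} (ht : t ^ 2 = 1 / 3) (ht0 : 0 < t) (hδ : 0 ≤ δ) (hd : 0 < d)
    (h1 : 4 / 3 ≤ δ ^ 2 + d ^ 2) (hZ : (2 * t + δ) ^ 2 + d ^ 2 < 4) :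
    ∃ a β : ℝ, 1 ≤ a ∧ 0 ≤ β ∧ β ≤ t ∧ a ≤ 2 * t ∧ a ^ 2 + β ^ 2 = 4 / 3 ∧
      a * δ + β * d = (8 / 3 - δ ^ 2 - d ^ 2) / 2 := by
  have hcont : ContinuousOn (fun β : ℝ => Real.sqrt (4 / 3 - β ^ 2) * δ + β * d)
      (Set.Icc 0 t) := by
    apply Continuous.continuousOn
    fun_prop
  have hsub := intermediate_value_Icc ht0.le hcont
  have hmem : (8 / 3 - δ ^ 2 - d ^ 2) / 2 ∈ Set.Icc
      ((fun β : ℝ => Real.sqrt (4 / 3 - β ^ 2) * δ + β * d) 0)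
      ((fun β : ℝ => Real.sqrt (4 / 3 - β ^ 2) * δ + β * d) t) := by
    constructor
    · show Real.sqrt (4 / 3 - (0 : ℝ) ^ 2) * δ + 0 * d ≤ _
      have : Real.sqrt (4 / 3 - (0 : ℝ) ^ 2) = 2 * t := by
        rw [show (4 / 3 - (0 : ℝ) ^ 2) = (2 * t) ^ 2 by rw [mul_pow, ht]; norm_num]
        exact Real.sqrt_sq (by linarith)
      rw [this]
      nlinarith
    · show _ ≤ Real.sqrt (4 / 3 - t ^ 2) * δ + t * d
      have : Real.sqrt (4 / 3 - t ^ 2) = 1 := by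
        rw [ht]; norm_num
      rw [this]
      have h2 : 2 / 3 ≤ δ + t * d := by
        have h3 : (2 / 3 : ℝ) ^ 2 ≤ (δ + t * d) ^ 2 := by
          have : (δ + t * d) ^ 2 = δ ^ 2 + 2 * (t * (δ * d)) + t ^ 2 * d ^ 2 := by ring
          rw [this, ht]
          have : 0 ≤ t * (δ * d) := by positivity
          nlinarith [sq_nonneg δ]
        exact (abs_le_of_sq_le_sq' h3 (by positivity)).2
      linarith
  obtain ⟨β, ⟨hβ0, hβt⟩, hβ⟩ := hsub hmem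
  have hβsq : β ^ 2 ≤ 1 / 3 := by rw [← ht]; exact pow_le_pow_left₀ hβ0 hβt 2
  have hsq : Real.sqrt (4 / 3 - β ^ 2) ^ 2 = 4 / 3 - β ^ 2 := Real.sq_sqrt (by linarith)
  refine ⟨Real.sqrt (4 / 3 - β ^ 2), β, ?_, hβ0, hβt, ?_, by rw [hsq]; ring, hβ⟩
  · rw [Real.one_le_sqrt]; linarith
  · have : (Real.sqrt (4 / 3 - β ^ 2)) ^ 2 ≤ (2 * t) ^ 2 := by
      rw [hsq, mul_pow, ht]; nlinarith [sq_nonneg β]
    exact (abs_le_of_sq_le_sq' this (by linarith)).2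

/-- consequences of tightness for the first point, on the circle -/
theorem first {t δ d a β : ℝ} (ht : t ^ 2 = 1 / 3) (ht0 : 0 < t) (hδ : 0 ≤ δ) (hd : 0 < d)
    (h1 : 4 / 3 ≤ δ ^ 2 + d ^ 2) (hδt : δ < t) (ha : 1 ≤ a) (hβ : 0 ≤ β) (hβt : β ≤ t)
    (hab : a ^ 2 + β ^ 2 = 4 / 3)
    (htight : a * δ + β * d = (8 / 3 - δ ^ 2 - d ^ 2) / 2) :
    δ ≤ a / 2 - 3 / 2 * t * β ∧ 3 / 2 * t * a + β / 2 ≤ d := by
  have hδsq : δ ^ 2 < 1 / 3 := by rw [← ht]; exact pow_lt_pow_left₀ hδt hδ (by norm_num)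
  set d0 := Real.sqrt (4 / 3 - δ ^ 2) with hd0
  have hd0sq : d0 ^ 2 = 4 / 3 - δ ^ 2 := Real.sq_sqrt (by linarith)
  have hd0pos : 0 ≤ d0 := Real.sqrt_nonneg _
  have hd01 : 1 < d0 := by nlinarith
  have hd0d : d0 ≤ d := abs_le_of_sq_le_sq' (by rw [hd0sq]; linarith) hd.le |>.2
  have hc : a * δ + β * d0 ≤ 2 / 3 := by
    nlinarith [mul_nonneg (sub_nonneg.2 hd0d) (by linarith : 0 ≤ d + d0),
      mul_nonneg hβ (sub_nonneg.2 hd0d)]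
  have hc0 : 0 ≤ a * δ + β * d0 := by positivity
  set c := a * δ + β * d0 with hcdef
  set s := a * d0 - β * δ with hsdef
  have hcs : c ^ 2 + s ^ 2 = 16 / 9 := by
    have : c ^ 2 + s ^ 2 = (a ^ 2 + β ^ 2) * (δ ^ 2 + d0 ^ 2) := by rw [hcdef, hsdef]; ring
    rw [this, hab, hd0sq]; ring
  have hb := t_bounds ht ht0
  have hs0 : 0 < s := by
    have h3 : 1 < a * d0 := by nlinarith
    have h4 : β * δ ≤ t * t := mul_le_mul hβt hδt.le hδ ht0.le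
    nlinarith
  have hs : 2 * t ≤ s := by
    have : (2 * t) ^ 2 ≤ s ^ 2 := by rw [mul_pow, ht]; nlinarith
    exact (abs_le_of_sq_le_sq' this hs0.le).2
  have hδeq : δ * (4 / 3) = a * c - β * s := by
    rw [← hab, hcdef, hsdef]; ring
  have hδle : δ ≤ a / 2 - 3 / 2 * t * β := by
    have h5 : a * c ≤ a * (2 / 3) := mul_le_mul_of_nonneg_left hc (by linarith)
    have h6 : β * (2 * t) ≤ β * s := mul_le_mul_of_nonneg_left hs hβ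
    nlinarith
  refine ⟨hδle, le_trans ?_ hd0d⟩
  have h7 : (3 / 2 * t * a + β / 2) ^ 2 ≤ d0 ^ 2 := by
    have h8 : δ ^ 2 ≤ (a / 2 - 3 / 2 * t * β) ^ 2 := pow_le_pow_left₀ hδ hδle 2
    have h9 : (3 / 2 * t * a + β / 2) ^ 2 + (a / 2 - 3 / 2 * t * β) ^ 2 =
        (a ^ 2 + β ^ 2) * (1 / 4 + 9 / 4 * t ^ 2) := by ring
    rw [hab, ht] at h9
    rw [hd0sq]
    linarith
  exact (abs_le_of_sq_le_sq' h7 hd0pos).2

/-- second point, opposite side -/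
theorem second {t δ1 d1 a β δ e : ℝ} (ht : t ^ 2 = 1 / 3) (ht0 : 0 < t)
    (hF1 : δ1 ≤ a / 2 - 3 / 2 * t * β) (hF2 : 3 / 2 * t * a + β / 2 ≤ d1)
    (ha : 1 ≤ a) (ha2 : a ≤ 2 * t) (hβ : 0 ≤ β) (hβt : β ≤ t) (hab : a ^ 2 + β ^ 2 = 4 / 3)
    (hδ : 0 ≤ δ) (hδ1 : δ < 1) (he : 0 < e) (h1 : 4 / 3 ≤ δ ^ 2 + e ^ 2)
    (h2 : (d1 + e) ^ 2 ≤ 3 ∨ 2 * t ≤ δ1 + δ) :
    4 ≤ (a + δ) ^ 2 + (e - β) ^ 2 := by
  set e0 := Real.sqrt (4 / 3 - δ ^ 2) with he0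
  have hδsq : δ ^ 2 < 1 := by nlinarith
  have he0sq : e0 ^ 2 = 4 / 3 - δ ^ 2 := Real.sq_sqrt (by linarith)
  have he0pos : 0 ≤ e0 := Real.sqrt_nonneg _
  have he0t : t ≤ e0 := by
    have : t ^ 2 ≤ e0 ^ 2 := by rw [ht, he0sq]; linarith
    exact (abs_le_of_sq_le_sq' this he0pos).2
  have he0e : e0 ≤ e := abs_le_of_sq_le_sq' (by rw [he0sq]; linarith) he.le |>.2
  have hes0 : 0 ≤ 3 / 2 * t * a - β / 2 := by nlinarith
  have hds0 : 0 ≤ a / 2 + 3 / 2 * t * β := by positivity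
  have hrot : (3 / 2 * t * a - β / 2) ^ 2 + (a / 2 + 3 / 2 * t * β) ^ 2 = 4 / 3 := by
    have h9 : (3 / 2 * t * a - β / 2) ^ 2 + (a / 2 + 3 / 2 * t * β) ^ 2 =
        (a ^ 2 + β ^ 2) * (1 / 4 + 9 / 4 * t ^ 2) := by ring
    rw [h9, hab, ht]; norm_num
  have hboth : a / 2 + 3 / 2 * t * β ≤ δ ∧ e0 ≤ 3 / 2 * t * a - β / 2 := by
    rcases h2 with h2 | h2
    · -- e0 small
      have h3 : d1 + e ≤ 3 * t := by
        have : (d1 + e) ^ 2 ≤ (3 * t) ^ 2 := by rw [mul_pow, ht]; linarith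
        exact (abs_le_of_sq_le_sq' this (by linarith)).2
      have h4 : e0 ≤ 3 / 2 * t * a - β / 2 := by nlinarith
      refine ⟨?_, h4⟩
      have : (a / 2 + 3 / 2 * t * β) ^ 2 ≤ δ ^ 2 := by
        have h5 : e0 ^ 2 ≤ (3 / 2 * t * a - β / 2) ^ 2 := pow_le_pow_left₀ he0pos h4 2
        linarith
      exact (abs_le_of_sq_le_sq' this hδ).2
    · have h4 : a / 2 + 3 / 2 * t * β ≤ δ := by linarith
      refine ⟨h4, ?_⟩
      have : e0 ^ 2 ≤ (3 / 2 * t * a - β / 2) ^ 2 := by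
        have h5 : (a / 2 + 3 / 2 * t * β) ^ 2 ≤ δ ^ 2 := pow_le_pow_left₀ hds0 h4 2
        linarith
      exact (abs_le_of_sq_le_sq' this hes0).2
  have hkey : 2 / 3 ≤ a * δ - β * e0 := by
    have h5 : a * (a / 2 + 3 / 2 * t * β) ≤ a * δ :=
      mul_le_mul_of_nonneg_left hboth.1 (by linarith)
    have h6 : β * e0 ≤ β * (3 / 2 * t * a - β / 2) := mul_le_mul_of_nonneg_left hboth.2 hβ
    have h7 : a * (a / 2 + 3 / 2 * t * β) - β * (3 / 2 * t * a - β / 2) = (a ^ 2 + β ^ 2) / 2 := by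
      ring
    rw [hab] at h7
    linarith
  have hmono : (e0 - β) ^ 2 ≤ (e - β) ^ 2 :=
    pow_le_pow_left₀ (by linarith) (by linarith) 2
  nlinarith

/-- second point, same side -/
theorem second' {t δ1 d1 a β δ d : ℝ} (ht : t ^ 2 = 1 / 3) (ht0 : 0 < t)
    (hδ10 : 0 ≤ δ1) (hδ1t : δ1 < t) (hd10 : 0 < d1) (hρ1 : 4 / 3 ≤ δ1 ^ 2 + d1 ^ 2)
    (hd1 : d1 ^ 2 < 8 / 3)
    (ha : 1 ≤ a) (hβ : 0 ≤ β) (hab : a ^ 2 + β ^ 2 = 4 / 3)
    (hδ : 0 ≤ δ) (hd : 0 ≤ d) (h1 : 4 / 3 ≤ δ ^ 2 + d ^ 2)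
    (h2 : 4 ≤ (δ1 + δ) ^ 2 + (d1 - d) ^ 2) :
    4 ≤ (a + δ) ^ 2 + (d + β) ^ 2 := by
  by_contra hcon
  push Not at hcon
  have hb := t_bounds ht ht0
  have hβd : 0 ≤ β * d := by positivity
  have h3 : a * δ + β * d < (8 / 3 - δ ^ 2 - d ^ 2) / 2 := by
    have e : (a + δ) ^ 2 + (d + β) ^ 2 = (a ^ 2 + β ^ 2) + δ ^ 2 + d ^ 2 +
        2 * (a * δ + β * d) := by ring
    rw [e, hab] at hcon
    linarith
  have hδa : δ ≤ a * δ := le_mul_of_one_le_left hδ ha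
  have hδ3 : δ < 2 / 3 := by linarith
  have hdlt : d ^ 2 < 8 / 3 := by linarith [sq_nonneg δ]
  have lt164 : ∀ x : ℝ, x ^ 2 < 8 / 3 → x < 1.64 := by
    intro x hx
    by_contra h
    push Not at h
    have : (1.64 : ℝ) ^ 2 ≤ x ^ 2 := pow_le_pow_left₀ (by norm_num) h 2
    norm_num at this
    linarith
  have hd1lt : d1 < 1.64 := lt164 _ hd1
  have hdl : d < 1.64 := lt164 _ hdlt
  have hδ1sq : δ1 ^ 2 < 1 / 3 := by rw [← ht]; exact pow_lt_pow_left₀ hδ1t hδ10 (by norm_num)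
  have hδsq : δ ^ 2 < (2 / 3) ^ 2 := pow_lt_pow_left₀ hδ3 hδ (by norm_num)
  have hd1gt : 1 < d1 := by
    by_contra h
    push Not at h
    have : d1 ^ 2 ≤ 1 ^ 2 := pow_le_pow_left₀ hd10.le h 2
    linarith
  have hdgt : 0.9 < d := by
    by_contra h
    push Not at h
    have : d ^ 2 ≤ 0.9 ^ 2 := pow_le_pow_left₀ hd h 2
    norm_num at this hδsq
    linarith
  have h4 : (d1 - d) ^ 2 ≤ 0.74 ^ 2 := by
    rw [← sq_abs (d1 - d)]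
    refine pow_le_pow_left₀ (abs_nonneg _) ?_ 2
    rw [abs_le]
    constructor <;> linarith
  have h5 : (δ1 + δ) ^ 2 ≤ 1.25 ^ 2 := by
    refine pow_le_pow_left₀ (by linarith) ?_ 2
    linarith
  norm_num at h4 h5
  linarith

variable {ι : Type*}

theorem core {t : ℝ} (ht : t ^ 2 = 1 / 3) (ht0 : 0 < t) (δ d : ι → ℝ) (h0 : ∀ i, 0 ≤ δ i)
    (h1 : ∀ i, 4 / 3 ≤ δ i ^ 2 + d i ^ 2)
    (h2 : ∀ i j, i ≠ j → 4 ≤ (δ i + δ j) ^ 2 + (d i - d j) ^ 2 ∧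
      ((d i - d j) ^ 2 ≤ 3 ∨ 2 * t ≤ δ i + δ j)) (i₁ : ι)
    (hZ : (2 * t + δ i₁) ^ 2 + d i₁ ^ 2 < 4) (hpos : 0 < d i₁) :
    ∃ a b : ℝ, 1 ≤ a ∧ a ^ 2 + b ^ 2 = 4 / 3 ∧ ∀ i, 4 ≤ (a + δ i) ^ 2 + (b - d i) ^ 2 ∧
      ((b - d i) ^ 2 ≤ 3 ∨ 2 * t ≤ a + δ i) := by
  obtain ⟨a, β, ha, hβ, hβt, ha2, hab, htight⟩ := tight ht ht0 (h0 i₁) hpos (h1 i₁) hZ
  have hb := t_bounds ht ht0
  have hδt : δ i₁ < t := by
    have e : (2 * t + δ i₁) ^ 2 + d i₁ ^ 2 = 4 * t ^ 2 + (δ i₁ ^ 2 + d i₁ ^ 2) +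
      4 * (t * δ i₁) := by ring
    have h3 : t * δ i₁ < t * t := by
      rw [← sq, ht]
      rw [e, ht] at hZ
      linarith [h1 i₁]
    exact lt_of_mul_lt_mul_left h3 ht0.le
  have hd1 : d i₁ ^ 2 < 8 / 3 := by
    have e : (2 * t + δ i₁) ^ 2 = 4 * t ^ 2 + δ i₁ ^ 2 + 4 * (t * δ i₁) := by ring
    rw [e, ht] at hZ
    linarith [sq_nonneg (δ i₁), mul_nonneg ht0.le (h0 i₁)]
  obtain ⟨hF1, hF2⟩ := first ht ht0 (h0 i₁) hpos (h1 i₁) hδt ha hβ hβt hab htight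
  refine ⟨a, -β, ha, by rw [neg_sq]; exact hab, fun i => ?_⟩
  have hneg : (-β - d i) ^ 2 = (d i + β) ^ 2 := by ring
  rw [hneg]
  by_cases hi : i = i₁
  · subst hi
    have heq : (a + δ i) ^ 2 + (d i + β) ^ 2 = 4 := by
      have e : (a + δ i) ^ 2 + (d i + β) ^ 2 = (a ^ 2 + β ^ 2) + δ i ^ 2 + d i ^ 2 +
        2 * (a * δ i + β * d i) := by ring
      rw [e, hab, htight]; ring
    refine ⟨heq.ge, Or.inl ?_⟩
    have : (1 : ℝ) ^ 2 ≤ (a + δ i) ^ 2 :=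
      pow_le_pow_left₀ (by norm_num) (by linarith [h0 i]) 2
    linarith
  · obtain ⟨h3, h4⟩ := h2 i₁ i (Ne.symm hi)
    have h5 : 1 ≤ δ i₁ + δ i := by
      rcases h4 with h4 | h4
      · have h6 : (1 : ℝ) ^ 2 ≤ (δ i₁ + δ i) ^ 2 := by linarith
        exact (abs_le_of_sq_le_sq' h6 (by linarith [h0 i₁, h0 i])).2
      · linarith
    refine ⟨?_, Or.inr (by linarith)⟩
    by_cases hd : 0 ≤ d i
    · exact second' ht ht0 (h0 i₁) hδt hpos (h1 i₁) hd1 ha hβ hab (h0 i) hd (h1 i) h3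
    · push Not at hd
      by_cases hδ1 : δ i < 1
      · have h6 := second (t := t) (δ1 := δ i₁) (d1 := d i₁) (a := a) (β := β) (δ := δ i)
          (e := - d i) ht ht0 hF1 hF2 ha ha2 hβ hβt hab (h0 i) hδ1 (by linarith)
          (by rw [neg_sq]; exact h1 i)
          (by rcases h4 with h4 | h4
              · left; rw [← sub_eq_add_neg]; exact h4
              · right; exact h4)
        have : (- d i - β) ^ 2 = (d i + β) ^ 2 := by ring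
        rwa [this] at h6
      · push Not at hδ1
        have h6 : (2 : ℝ) ^ 2 ≤ (a + δ i) ^ 2 := pow_le_pow_left₀ (by norm_num) (by linarith) 2
        linarith [sq_nonneg (d i + β)]

/-- **Response lemma.** -/
theorem response {t : ℝ} (ht : t ^ 2 = 1 / 3) (ht0 : 0 < t) (δ d : ι → ℝ) (h0 : ∀ i, 0 ≤ δ i)
    (h1 : ∀ i, 4 / 3 ≤ δ i ^ 2 + d i ^ 2)
    (h2 : ∀ i j, i ≠ j → 4 ≤ (δ i + δ j) ^ 2 + (d i - d j) ^ 2 ∧
      ((d i - d j) ^ 2 ≤ 3 ∨ 2 * t ≤ δ i + δ j)) :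
    ∃ a b : ℝ, 1 ≤ a ∧ a ^ 2 + b ^ 2 = 4 / 3 ∧ ∀ i, 4 ≤ (a + δ i) ^ 2 + (b - d i) ^ 2 ∧
      ((b - d i) ^ 2 ≤ 3 ∨ 2 * t ≤ a + δ i) := by
  by_cases hZ : ∃ i₁, (2 * t + δ i₁) ^ 2 + d i₁ ^ 2 < 4
  · obtain ⟨i₁, hi₁⟩ := hZ
    have hb := t_bounds ht ht0
    have hδt : δ i₁ < t := by
      have e : (2 * t + δ i₁) ^ 2 + d i₁ ^ 2 = 4 * t ^ 2 + (δ i₁ ^ 2 + d i₁ ^ 2) +
        4 * (t * δ i₁) := by ring
      have h3 : t * δ i₁ < t * t := by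
        rw [← sq, ht]
        rw [e, ht] at hi₁
        linarith [h1 i₁]
      exact lt_of_mul_lt_mul_left h3 ht0.le
    have hne : d i₁ ≠ 0 := by
      intro h
      have h3 := h1 i₁
      rw [h] at h3
      have h4 : δ i₁ ^ 2 < 1 / 3 := by
        rw [← ht]; exact pow_lt_pow_left₀ hδt (h0 i₁) (by norm_num)
      linarith
    rcases lt_or_gt_of_ne hne with hneg | hpos
    · obtain ⟨a, b, ha, hab, hall⟩ := core ht ht0 δ (fun i => - d i) h0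
        (fun i => by rw [neg_sq]; exact h1 i)
        (fun i j hij => by
          have h3 := h2 i j hij
          have e : (- d i - - d j) ^ 2 = (d i - d j) ^ 2 := by ring
          simp only [e]; exact h3) i₁ (by simpa using hi₁) (by simpa using hneg)
      refine ⟨a, -b, ha, by rw [neg_sq]; exact hab, fun i => ?_⟩
      have h3 := hall i
      have e : (b - - d i) ^ 2 = (-b - d i) ^ 2 := by ring
      simp only [e] at h3
      exact h3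
    · exact core ht ht0 δ d h0 h1 h2 i₁ hi₁ hpos
  · push Not at hZ
    refine ⟨2 * t, 0, ?_, ?_, fun i => ⟨?_, Or.inr ?_⟩⟩
    · have hb := t_bounds ht ht0
      linarith
    · rw [mul_pow, ht]; norm_num
    · have := hZ i
      simpa using this
    · have := h0 i
      linarith

end Pool.Agent.Q99.PC
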