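import Pool.Agent.Q99.PC.HB
import Pool.Agent.Q99.PC.Quad

namespace Pool.Agent.Q99.PC

open scoped RealInnerProductSpace

variable {ι : Type*} {H : Type*} [NormedAddCommGroup H] [InnerProductSpace ℝ H]

theorem expand {a δ : ℝ} {v c : H} (hac : a ^ 2 + ‖c‖ ^ 2 = 4 / 3) :
    (a + δ) ^ 2 + ‖c + v‖ ^ 2 = 4 / 3 + δ ^ 2 + ‖v‖ ^ 2 + 2 * (a * δ + ⟪c, v⟫) := by
  rw [norm_add_sq_real]
  have : (a + δ) ^ 2 + (‖c‖ ^ 2 + 2 * ⟪c, v⟫ + ‖v‖ ^ 2) =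
      (a ^ 2 + ‖c‖ ^ 2) + δ ^ 2 + ‖v‖ ^ 2 + 2 * (a * δ + ⟪c, v⟫) := by ring
  rw [this, hac]

theorem side_vec {t a a' β δ : ℝ} {v c : H} (ht : t ^ 2 = 1 / 3) (ht0 : 0 < t)
    (hm : a / 2 + 3 / 2 * t * β ≤ δ)
    (ha : 1 ≤ a) (ha2 : a ≤ 2 * t) (hβ : 0 ≤ β) (hβt : β ≤ t) (hab : a ^ 2 + β ^ 2 = 4 / 3)
    (h1 : 4 / 3 ≤ δ ^ 2 + ‖v‖ ^ 2) (haa : a ≤ a') (hc : ‖c‖ ≤ β)
    (hac : a' ^ 2 + ‖c‖ ^ 2 = 4 / 3) :
    4 ≤ (a' + δ) ^ 2 + ‖c + v‖ ^ 2 := by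
  have hs := side ht ht0 hm ha ha2 hβ hβt hab (norm_nonneg v) h1
  rw [expand hac]
  have e : (a + δ) ^ 2 + (‖v‖ - β) ^ 2 = (a ^ 2 + β ^ 2) + δ ^ 2 + ‖v‖ ^ 2 +
      2 * (a * δ - β * ‖v‖) := by ring
  rw [e, hab] at hs
  have hδ : 0 ≤ δ := le_trans (by positivity) hm
  have h2 : a * δ ≤ a' * δ := mul_le_mul_of_nonneg_right haa hδ
  have h3 : - (β * ‖v‖) ≤ ⟪c, v⟫ := by
    have h4 : |⟪c, v⟫| ≤ ‖c‖ * ‖v‖ := abs_real_inner_le_norm c v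
    have h5 : ‖c‖ * ‖v‖ ≤ β * ‖v‖ := mul_le_mul_of_nonneg_right hc (norm_nonneg v)
    have h6 := neg_abs_le ⟪c, v⟫
    linarith
  linarith

/-- norm of a convex combination of two vectors -/
theorem norm_combo {v w : H} {l m : ℝ} (hlm : l + m = 1) :
    ‖l • v + m • w‖ ^ 2 = l * ‖v‖ ^ 2 + m * ‖w‖ ^ 2 - l * m * ‖v - w‖ ^ 2 := by
  rw [norm_add_sq_real, norm_sub_sq_real, norm_smul, norm_smul, real_inner_smul_left,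
    real_inner_smul_right, mul_pow, mul_pow, Real.norm_eq_abs, Real.norm_eq_abs, sq_abs, sq_abs]
  have : l = 1 - m := by linarith
  rw [this]; ring

/-- the minimax inequality for two close points -/
theorem minimax {t a β d1 d2 : ℝ} {v₁ v₂ : H} (ht : t ^ 2 = 1 / 3) (ht0 : 0 < t)
    (hS1 : 1 ≤ d1 + d2) (hS2 : d1 + d2 < 2 * t) (ha : 1 ≤ a) (hβ : 0 ≤ β)
    (hab : a ^ 2 + β ^ 2 = 4 / 3)
    (hq : a ^ 2 - a * ((3 - (d1 + d2)) / 2) + ((3 - (d1 + d2)) / 2) ^ 2 = 1)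
    (hcos : d1 ^ 2 + d1 * d2 + d2 ^ 2 ≤ 1) (hG : ‖v₁ - v₂‖ ^ 2 ≤ 3)
    (h1 : 4 / 3 ≤ d1 ^ 2 + ‖v₁‖ ^ 2) (h2 : 4 / 3 ≤ d2 ^ 2 + ‖v₂‖ ^ 2)
    (l m : ℝ) (hl : 0 ≤ l) (hm : 0 ≤ m) (hlm : l + m = 1) :
    l * ((8 / 3 - d1 ^ 2 - ‖v₁‖ ^ 2) / 2 - a * d1) +
      m * ((8 / 3 - d2 ^ 2 - ‖v₂‖ ^ 2) / 2 - a * d2) ≤ β * ‖l • v₁ + m • v₂‖ := by
  have hb := t_bounds ht ht0
  by_cases hR : l * ((8 / 3 - d1 ^ 2 - ‖v₁‖ ^ 2) / 2 - a * d1) +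
      m * ((8 / 3 - d2 ^ 2 - ‖v₂‖ ^ 2) / 2 - a * d2) ≤ 0
  · exact hR.trans (mul_nonneg hβ (norm_nonneg _))
  push Not at hR
  have hf := form (S := d1 + d2) rfl hS1 (by linarith) ha hq hcos hl hm hlm
  set W := l * (d1 ^ 2 + ‖v₁‖ ^ 2 - 4 / 3) + m * (d2 ^ 2 + ‖v₂‖ ^ 2 - 4 / 3) with hW
  have hW0 : 0 ≤ W := add_nonneg (mul_nonneg hl (by linarith)) (mul_nonneg hm (by linarith))
  have hReq : l * ((8 / 3 - d1 ^ 2 - ‖v₁‖ ^ 2) / 2 - a * d1) +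
      m * ((8 / 3 - d2 ^ 2 - ‖v₂‖ ^ 2) / 2 - a * d2) =
      2 / 3 - a * (l * d1 + m * d2) - W / 2 := by
    rw [hW]
    have : l = 1 - m := by linarith
    rw [this]; ring
  rw [hReq] at hR ⊢
  have hN : ‖l • v₁ + m • v₂‖ ^ 2 ≥
      4 / 3 - (l * d1 ^ 2 + m * d2 ^ 2) - 3 * (l * m) + W := by
    rw [norm_combo hlm]
    have h3 : l * m * ‖v₁ - v₂‖ ^ 2 ≤ l * m * 3 :=
      mul_le_mul_of_nonneg_left hG (mul_nonneg hl hm)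
    have : W = l * ‖v₁‖ ^ 2 + m * ‖v₂‖ ^ 2 + (l * d1 ^ 2 + m * d2 ^ 2) - 4 / 3 := by
      rw [hW]
      have : l = 1 - m := by linarith
      rw [this]; ring
    linarith
  have hβsq : β ^ 2 = 4 / 3 - a ^ 2 := by linarith
  have hfin : (2 / 3 - a * (l * d1 + m * d2) - W / 2) ^ 2 ≤ (β * ‖l • v₁ + m • v₂‖) ^ 2 := by
    have h4 : (2 / 3 - a * (l * d1 + m * d2) - W / 2) ^ 2 ≤
        (2 / 3 - a * (l * d1 + m * d2)) ^ 2 :=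
      pow_le_pow_left₀ hR.le (by linarith) 2
    have h5 : (4 / 3 - a ^ 2) * (4 / 3 - (l * d1 ^ 2 + m * d2 ^ 2) - 3 * (l * m)) ≤
        (4 / 3 - a ^ 2) * ‖l • v₁ + m • v₂‖ ^ 2 := by
      refine mul_le_mul_of_nonneg_left (by linarith) ?_
      rw [← hβsq]; exact sq_nonneg β
    rw [mul_pow, hβsq]
    linarith
  exact (abs_le_of_sq_le_sq' hfin (mul_nonneg hβ (norm_nonneg _))).2

/-- **Response lemma in a Hilbert space.** -/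
theorem respH {t : ℝ} (ht : t ^ 2 = 1 / 3) (ht0 : 0 < t) (δ : ι → ℝ) (v : ι → H)
    (h0 : ∀ i, 0 ≤ δ i) (h1 : ∀ i, 4 / 3 ≤ δ i ^ 2 + ‖v i‖ ^ 2)
    (h2 : ∀ i j, i ≠ j → 4 ≤ (δ i + δ j) ^ 2 + ‖v i - v j‖ ^ 2 ∧
      (‖v i - v j‖ ^ 2 ≤ 3 ∨ 2 * t ≤ δ i + δ j))
    (h3 : ∀ i j k, i ≠ j → i ≠ k → j ≠ k → 3 ≤ δ i + δ j + 2 * δ k ∨
      3 ≤ δ i + δ k + 2 * δ j ∨ 3 ≤ δ j + δ k + 2 * δ i) :
    ∃ (a : ℝ) (b : H), 1 ≤ a ∧ a ^ 2 + ‖b‖ ^ 2 = 4 / 3 ∧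
      ∀ i, 4 ≤ (a + δ i) ^ 2 + ‖b - v i‖ ^ 2 ∧ (‖b - v i‖ ^ 2 ≤ 3 ∨ 2 * t ≤ a + δ i) := by
  have hb := t_bounds ht ht0
  -- it suffices to find `c = -b`
  suffices hsuff : ∃ (a : ℝ) (c : H), 1 ≤ a ∧ a ^ 2 + ‖c‖ ^ 2 = 4 / 3 ∧
      ∀ i, 4 ≤ (a + δ i) ^ 2 + ‖c + v i‖ ^ 2 ∧ (‖c + v i‖ ^ 2 ≤ 3 ∨ 2 * t ≤ a + δ i) by
    obtain ⟨a, c, ha, hac, hall⟩ := hsuff
    refine ⟨a, -c, ha, by rw [norm_neg]; exact hac, fun i => ?_⟩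
    have e : ‖-c - v i‖ = ‖c + v i‖ := by
      rw [← norm_neg]; congr 1; abel
    rw [e]; exact hall i
  by_cases hZ : ∃ i, (2 * t + δ i) ^ 2 + ‖v i‖ ^ 2 < 4
  swap
  · push Not at hZ
    refine ⟨2 * t, 0, by linarith, ?_, fun i => ⟨?_, Or.inr ?_⟩⟩
    · rw [mul_pow, ht, norm_zero]; norm_num
    · rw [zero_add]; exact hZ i
    · linarith [h0 i]
  obtain ⟨i₁, hi₁⟩ := hZ
  have Zlt : ∀ i, (2 * t + δ i) ^ 2 + ‖v i‖ ^ 2 < 4 → δ i < t := by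
    intro i hi
    have e : (2 * t + δ i) ^ 2 + ‖v i‖ ^ 2 = 4 * t ^ 2 + (δ i ^ 2 + ‖v i‖ ^ 2) +
      4 * (t * δ i) := by ring
    have h3 : t * δ i < t * t := by
      rw [← sq, ht]
      rw [e, ht] at hi
      linarith [h1 i]
    exact lt_of_mul_lt_mul_left h3 ht0.le
  have hδt := Zlt i₁ hi₁
  have hδsq : δ i₁ ^ 2 < 1 / 3 := by rw [← ht]; exact pow_lt_pow_left₀ hδt (h0 i₁) (by norm_num)
  have hv0 : 0 < ‖v i₁‖ := by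
    by_contra h
    have h4 : ‖v i₁‖ = 0 := le_antisymm (not_lt.1 h) (norm_nonneg _)
    have h5 := h1 i₁
    rw [h4] at h5
    linarith
  have hsum1 : ∀ i j, i ≠ j → 1 ≤ δ i + δ j := by
    intro i j hij
    obtain ⟨h4, h5⟩ := h2 i j hij
    rcases h5 with h5 | h5
    · have h6 : (1 : ℝ) ^ 2 ≤ (δ i + δ j) ^ 2 := by linarith
      exact (abs_le_of_sq_le_sq' h6 (by linarith [h0 i, h0 j])).2
    · linarith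
  obtain ⟨a₁, β₁, ha₁, hβ₁, hβt₁, ha2₁, hab₁, htight⟩ := tight ht ht0 (h0 i₁) hv0 (h1 i₁) hi₁
  obtain ⟨hF1, -⟩ := first ht ht0 (h0 i₁) hv0 (h1 i₁) hδt ha₁ hβ₁ hβt₁ hab₁ htight
  set c₁ : H := (β₁ / ‖v i₁‖) • v i₁ with hc₁
  have hc₁n : ‖c₁‖ = β₁ := by
    rw [hc₁, norm_smul, Real.norm_of_nonneg (div_nonneg hβ₁ hv0.le), div_mul_cancel₀ _ hv0.ne']
  have hc₁v : ⟪c₁, v i₁⟫ = β₁ * ‖v i₁‖ := by
    rw [hc₁, real_inner_smul_left, real_inner_self_eq_norm_sq]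
    field_simp
  have hac₁ : a₁ ^ 2 + ‖c₁‖ ^ 2 = 4 / 3 := by rw [hc₁n]; exact hab₁
  -- a point which is tight is fine
  have tight_fine : ∀ (a : ℝ) (c : H), 1 ≤ a → a ^ 2 + ‖c‖ ^ 2 = 4 / 3 →
      a * δ i₁ + ⟪c, v i₁⟫ = (8 / 3 - δ i₁ ^ 2 - ‖v i₁‖ ^ 2) / 2 →
      4 ≤ (a + δ i₁) ^ 2 + ‖c + v i₁‖ ^ 2 ∧ (‖c + v i₁‖ ^ 2 ≤ 3 ∨ 2 * t ≤ a + δ i₁) := by
    intro a c ha hac hti
    have heq : (a + δ i₁) ^ 2 + ‖c + v i₁‖ ^ 2 = 4 := by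
      rw [expand hac, hti]; ring
    refine ⟨heq.ge, Or.inl ?_⟩
    have : (1 : ℝ) ^ 2 ≤ (a + δ i₁) ^ 2 :=
      pow_le_pow_left₀ (by norm_num) (by linarith [h0 i₁]) 2
    linarith
  by_cases hall : ∀ j, j ≠ i₁ → 4 ≤ (a₁ + δ j) ^ 2 + ‖c₁ + v j‖ ^ 2
  · refine ⟨a₁, c₁, ha₁, hac₁, fun i => ?_⟩
    by_cases hi : i = i₁
    · subst hi
      exact tight_fine a₁ c₁ ha₁ hac₁ (by rw [hc₁v]; exact htight)
    · exact ⟨hall i hi, Or.inr (by linarith [hsum1 i i₁ hi])⟩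
  push Not at hall
  obtain ⟨i₂, hi₂, hfail⟩ := hall
  have hm2 : δ i₂ < a₁ / 2 + 3 / 2 * t * β₁ := by
    by_contra h
    push Not at h
    have := side_vec ht ht0 h ha₁ ha2₁ hβ₁ hβt₁ hab₁ (h1 i₂) le_rfl hc₁n.le hac₁
    linarith
  have hcos : δ i₁ ^ 2 + δ i₁ * δ i₂ + δ i₂ ^ 2 ≤ 1 := by
    have hp0 : 0 ≤ a₁ / 2 - 3 / 2 * t * β₁ := (h0 i₁).trans hF1
    have e : (a₁ / 2 - 3 / 2 * t * β₁) ^ 2 + (a₁ / 2 - 3 / 2 * t * β₁) *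
        (a₁ / 2 + 3 / 2 * t * β₁) + (a₁ / 2 + 3 / 2 * t * β₁) ^ 2 = 1 := by
      have : (a₁ / 2 - 3 / 2 * t * β₁) ^ 2 + (a₁ / 2 - 3 / 2 * t * β₁) *
        (a₁ / 2 + 3 / 2 * t * β₁) + (a₁ / 2 + 3 / 2 * t * β₁) ^ 2 =
        3 / 4 * (a₁ ^ 2 + 3 * t ^ 2 * β₁ ^ 2) := by ring
      rw [this, ht]
      linarith
    have h4 : δ i₁ ^ 2 ≤ (a₁ / 2 - 3 / 2 * t * β₁) ^ 2 := pow_le_pow_left₀ (h0 i₁) hF1 2
    have h5 : δ i₂ ^ 2 ≤ (a₁ / 2 + 3 / 2 * t * β₁) ^ 2 := pow_le_pow_left₀ (h0 i₂) hm2.le 2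
    have h6 : δ i₁ * δ i₂ ≤ (a₁ / 2 - 3 / 2 * t * β₁) * (a₁ / 2 + 3 / 2 * t * β₁) :=
      mul_le_mul hF1 hm2.le (h0 i₂) hp0
    linarith
  have hS1 : 1 ≤ δ i₁ + δ i₂ := hsum1 i₁ i₂ (Ne.symm hi₂)
  have hS2 : δ i₁ + δ i₂ < 2 * t := by linarith
  have hG : ‖v i₁ - v i₂‖ ^ 2 ≤ 3 := by
    rcases (h2 i₁ i₂ (Ne.symm hi₂)).2 with h | h
    · exact h
    · linarith
  obtain ⟨a, β, ha, ha2, hβ, hβt, hab, hm, hq⟩ := params ht ht0 hS1 hS2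
  obtain ⟨c, hcβ, hτ1, hτ2⟩ := two_constraints (v i₁) (v i₂)
    ((8 / 3 - δ i₁ ^ 2 - ‖v i₁‖ ^ 2) / 2 - a * δ i₁)
    ((8 / 3 - δ i₂ ^ 2 - ‖v i₂‖ ^ 2) / 2 - a * δ i₂) β hβ
    (minimax ht ht0 hS1 hS2 ha hβ hab hq hcos hG (h1 i₁) (h1 i₂))
  -- third points
  have hthird : ∀ (a' : ℝ) (c' : H), a ≤ a' → ‖c'‖ ≤ β → a' ^ 2 + ‖c'‖ ^ 2 = 4 / 3 →
      ∀ j, j ≠ i₁ → j ≠ i₂ → 4 ≤ (a' + δ j) ^ 2 + ‖c' + v j‖ ^ 2 := by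
    intro a' c' haa hc' hac' j hj1 hj2
    have hor : (3 - (δ i₁ + δ i₂)) / 2 ≤ δ j ∨ 1 ≤ δ j := by
      rcases h3 i₁ i₂ j (Ne.symm hi₂) (Ne.symm hj1) (Ne.symm hj2) with h | h | h
      · left; linarith
      · right
        have h4 : δ i₁ + 2 * δ i₂ ≤ 2 := by
          have : (δ i₁ + 2 * δ i₂) ^ 2 ≤ 2 ^ 2 := by
            have e : (δ i₁ + 2 * δ i₂) ^ 2 =
              4 * (δ i₁ ^ 2 + δ i₁ * δ i₂ + δ i₂ ^ 2) - 3 * δ i₁ ^ 2 := by ring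
            rw [e]; linarith [sq_nonneg (δ i₁)]
          exact (abs_le_of_sq_le_sq' this (by norm_num)).2
        linarith
      · right
        have h4 : δ i₂ + 2 * δ i₁ ≤ 2 := by
          have : (δ i₂ + 2 * δ i₁) ^ 2 ≤ 2 ^ 2 := by
            have e : (δ i₂ + 2 * δ i₁) ^ 2 =
              4 * (δ i₁ ^ 2 + δ i₁ * δ i₂ + δ i₂ ^ 2) - 3 * δ i₂ ^ 2 := by ring
            rw [e]; linarith [sq_nonneg (δ i₂)]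
          exact (abs_le_of_sq_le_sq' this (by norm_num)).2
        linarith
    rcases hor with h | h
    · exact side_vec ht ht0 (by rw [hm]; exact h) ha ha2 hβ hβt hab (h1 j) haa hc' hac'
    · have h6 : (2 : ℝ) ^ 2 ≤ (a' + δ j) ^ 2 :=
        pow_le_pow_left₀ (by norm_num) (by linarith) 2
      linarith [sq_nonneg ‖c' + v j‖]
  have hcsq : ‖c‖ ^ 2 ≤ β ^ 2 := pow_le_pow_left₀ (norm_nonneg _) hcβ 2
  have hβsq : β ^ 2 ≤ 1 / 3 := by rw [← ht]; exact pow_le_pow_left₀ hβ hβt 2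
  set A := Real.sqrt (4 / 3 - ‖c‖ ^ 2) with hA
  have hAsq : A ^ 2 = 4 / 3 - ‖c‖ ^ 2 := Real.sq_sqrt (by linarith)
  have hA0 : 0 ≤ A := Real.sqrt_nonneg _
  have haA : a ≤ A := by
    have : a ^ 2 ≤ A ^ 2 := by rw [hAsq]; linarith
    exact (abs_le_of_sq_le_sq' this hA0).2
  have hA2t : A ≤ 2 * t := by
    have : A ^ 2 ≤ (2 * t) ^ 2 := by rw [hAsq, mul_pow, ht]; linarith [sq_nonneg ‖c‖]
    exact (abs_le_of_sq_le_sq' this (by linarith)).2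
  have hAc : A ^ 2 + ‖c‖ ^ 2 = 4 / 3 := by rw [hAsq]; ring
  have hA1 : (8 / 3 - δ i₁ ^ 2 - ‖v i₁‖ ^ 2) / 2 ≤ A * δ i₁ + ⟪c, v i₁⟫ := by
    have := mul_le_mul_of_nonneg_right haA (h0 i₁)
    linarith
  have hA2 : (8 / 3 - δ i₂ ^ 2 - ‖v i₂‖ ^ 2) / 2 ≤ A * δ i₂ + ⟪c, v i₂⟫ := by
    have := mul_le_mul_of_nonneg_right haA (h0 i₂)
    linarith
  by_cases h2Z : (2 * t + δ i₂) ^ 2 + ‖v i₂‖ ^ 2 < 4
  · have hδ2t := Zlt i₂ h2Z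
    refine ⟨A, c, ha.trans haA, hAc, fun i => ?_⟩
    by_cases hi1 : i = i₁
    · rw [hi1]
      refine ⟨?_, Or.inr (by linarith)⟩
      rw [expand hAc]; linarith
    · have hN : 2 * t ≤ A + δ i := by linarith [hsum1 i i₁ hi1]
      by_cases hi2 : i = i₂
      · rw [hi2] at hN ⊢
        refine ⟨?_, Or.inr hN⟩
        rw [expand hAc]; linarith
      · exact ⟨hthird A c haA hcβ hAc i hi1 hi2, Or.inr hN⟩
  · push Not at h2Z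
    -- intermediate value on the segment
    have hcont : ContinuousOn (fun s : ℝ => Real.sqrt (4 / 3 - (s * ‖c‖) ^ 2) * δ i₁ +
        s * ⟪c, v i₁⟫) (Set.Icc 0 1) := by
      apply Continuous.continuousOn
      fun_prop
    have hsub := intermediate_value_Icc (zero_le_one (α := ℝ)) hcont
    have hmem : (8 / 3 - δ i₁ ^ 2 - ‖v i₁‖ ^ 2) / 2 ∈ Set.Icc
        ((fun s : ℝ => Real.sqrt (4 / 3 - (s * ‖c‖) ^ 2) * δ i₁ + s * ⟪c, v i₁⟫) 0)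
        ((fun s : ℝ => Real.sqrt (4 / 3 - (s * ‖c‖) ^ 2) * δ i₁ + s * ⟪c, v i₁⟫) 1) := by
      constructor
      · show Real.sqrt (4 / 3 - ((0 : ℝ) * ‖c‖) ^ 2) * δ i₁ + 0 * ⟪c, v i₁⟫ ≤ _
        have : Real.sqrt (4 / 3 - ((0 : ℝ) * ‖c‖) ^ 2) = 2 * t := by
          rw [show (4 / 3 - ((0 : ℝ) * ‖c‖) ^ 2) = (2 * t) ^ 2 by rw [mul_pow 2 t, ht]; norm_num]
          exact Real.sqrt_sq (by linarith)
        rw [this]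
        have e : (2 * t + δ i₁) ^ 2 + ‖v i₁‖ ^ 2 = 4 * t ^ 2 + (δ i₁ ^ 2 + ‖v i₁‖ ^ 2) +
          2 * (2 * t * δ i₁) := by ring
        rw [e, ht] at hi₁
        linarith
      · show _ ≤ Real.sqrt (4 / 3 - ((1 : ℝ) * ‖c‖) ^ 2) * δ i₁ + 1 * ⟪c, v i₁⟫
        rw [one_mul, one_mul, ← hA]
        exact hA1
    obtain ⟨s, ⟨hs0, hs1⟩, hs⟩ := hsub hmem
    simp only at hs
    set As := Real.sqrt (4 / 3 - (s * ‖c‖) ^ 2) with hAs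
    have hscn : ‖s • c‖ = s * ‖c‖ := by rw [norm_smul, Real.norm_of_nonneg hs0]
    have hsc : s * ‖c‖ ≤ ‖c‖ := by
      have := mul_le_mul_of_nonneg_right hs1 (norm_nonneg c)
      linarith
    have hsc0 : 0 ≤ s * ‖c‖ := mul_nonneg hs0 (norm_nonneg c)
    have hscsq : (s * ‖c‖) ^ 2 ≤ ‖c‖ ^ 2 := pow_le_pow_left₀ hsc0 hsc 2
    have hAssq : As ^ 2 = 4 / 3 - (s * ‖c‖) ^ 2 := Real.sq_sqrt (by linarith)
    have hAs0 : 0 ≤ As := Real.sqrt_nonneg _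
    have hAAs : A ≤ As := by
      have : A ^ 2 ≤ As ^ 2 := by rw [hAsq, hAssq]; linarith
      exact (abs_le_of_sq_le_sq' this hAs0).2
    have hAsc : As ^ 2 + ‖s • c‖ ^ 2 = 4 / 3 := by rw [hAssq, hscn]; ring
    have hconc : (1 - s) * (2 * t) + s * A ≤ As := by
      have : ((1 - s) * (2 * t) + s * A) ^ 2 ≤ As ^ 2 := by
        have e : ((1 - s) * (2 * t) + s * A) ^ 2 = (1 - s) ^ 2 * (4 * t ^ 2) + s ^ 2 * A ^ 2 +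
          (s * (1 - s)) * (4 * (t * A)) := by ring
        rw [e, hAsq, hAssq, ht]
        have h5 : t * A ≤ t * (2 * t) := mul_le_mul_of_nonneg_left hA2t ht0.le
        have h6 : t * (2 * t) = 2 / 3 := by
          have : t * (2 * t) = 2 * t ^ 2 := by ring
          rw [this, ht]; norm_num
        have h7 : (s * (1 - s)) * (4 * (t * A)) ≤ (s * (1 - s)) * (8 / 3) :=
          mul_le_mul_of_nonneg_left (by linarith) (mul_nonneg hs0 (by linarith))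
        have e8 : (1 - s) ^ 2 * (4 * (1 / 3)) + s ^ 2 * (4 / 3 - ‖c‖ ^ 2) +
            (s * (1 - s)) * (8 / 3) = 4 / 3 - (s * ‖c‖) ^ 2 := by ring
        linarith
      exact (abs_le_of_sq_le_sq' this hAs0).2
    refine ⟨As, s • c, by linarith, hAsc, fun i => ?_⟩
    by_cases hi1 : i = i₁
    · rw [hi1]
      refine tight_fine As (s • c) (by linarith) hAsc ?_
      rw [real_inner_smul_left]; exact hs
    · have hN : 2 * t ≤ As + δ i := by linarith [hsum1 i i₁ hi1]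
      by_cases hi2 : i = i₂
      · rw [hi2] at hN ⊢
        refine ⟨?_, Or.inr hN⟩
        rw [expand hAsc, real_inner_smul_left]
        have h5 : ((1 - s) * (2 * t) + s * A) * δ i₂ ≤ As * δ i₂ :=
          mul_le_mul_of_nonneg_right hconc (h0 i₂)
        have e : (2 * t + δ i₂) ^ 2 + ‖v i₂‖ ^ 2 = 4 * t ^ 2 + (δ i₂ ^ 2 + ‖v i₂‖ ^ 2) +
          2 * (2 * t * δ i₂) := by ring
        rw [e, ht] at h2Z
        have h6 : (1 - s) * ((8 / 3 - δ i₂ ^ 2 - ‖v i₂‖ ^ 2) / 2) ≤ (1 - s) * (2 * t * δ i₂) :=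
          mul_le_mul_of_nonneg_left (by linarith) (by linarith)
        have h7 : s * ((8 / 3 - δ i₂ ^ 2 - ‖v i₂‖ ^ 2) / 2) ≤ s * (A * δ i₂ + ⟪c, v i₂⟫) :=
          mul_le_mul_of_nonneg_left hA2 hs0
        have e5 : ((1 - s) * (2 * t) + s * A) * δ i₂ + s * ⟪c, v i₂⟫ =
            (1 - s) * (2 * t * δ i₂) + s * (A * δ i₂ + ⟪c, v i₂⟫) := by ring
        have e6 : (1 - s) * ((8 / 3 - δ i₂ ^ 2 - ‖v i₂‖ ^ 2) / 2) +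
            s * ((8 / 3 - δ i₂ ^ 2 - ‖v i₂‖ ^ 2) / 2) =
            (8 / 3 - δ i₂ ^ 2 - ‖v i₂‖ ^ 2) / 2 := by ring
        linarith
      · exact ⟨hthird As (s • c) (haA.trans hAAs) (by rw [hscn]; exact hsc.trans hcβ) hAsc i
          hi1 hi2, Or.inr hN⟩

end Pool.Agent.Q99.PC
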