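import Pool.Agent.Q99.PC.RespH

namespace Pool.Agent.Q99.PC

/-- the sequence space `ℓ₁` -/
abbrev L1 : Type := lp (fun _ : ℕ => ℝ) 1

theorem norm_fresh (z : L1) (N : ℕ) (hz : z N = 0) (a : ℝ) :
    ‖z + lp.single 1 N a‖ = ‖z‖ + |a| := by
  have h := lp.norm_sub_norm_compl_sub_single (E := fun _ : ℕ => ℝ) (p := 1) (by simp)
    (z + lp.single 1 N a) {N}
  simp only [ENNReal.toReal_one, Real.rpow_one, Finset.sum_singleton] at h
  have hN : (z + lp.single 1 N a : L1) N = a := by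
    rw [lp.coeFn_add, Pi.add_apply, hz, lp.single_apply_self, zero_add]
  rw [hN] at h
  rw [add_sub_cancel_right] at h
  rw [← Real.norm_eq_abs]
  linarith

theorem coord_le (z : L1) (N : ℕ) : |z N| ≤ ‖z‖ := by
  have := lp.norm_apply_le_norm (p := 1) (by norm_num) z N
  simpa using this

variable {H : Type*} [NormedAddCommGroup H] [InnerProductSpace ℝ H]

/-- safe vectors -/
def Safe (t : ℝ) (x : WithLp 2 (L1 × H)) : Prop :=
  4 ≤ ‖x.fst‖ ^ 2 + ‖x.snd‖ ^ 2 ∧ (‖x.snd‖ ^ 2 ≤ 3 ∨ 2 * t ≤ ‖x.fst‖)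

theorem Safe.neg {t : ℝ} {x : WithLp 2 (L1 × H)} (h : Safe t x) : Safe t (-x) := by
  unfold Safe at *
  rw [WithLp.neg_fst, WithLp.neg_snd, norm_neg, norm_neg]
  exact h

theorem Safe.one_le {t : ℝ} (ht : t ^ 2 = 1 / 3) (ht0 : 0 < t) {x : WithLp 2 (L1 × H)}
    (h : Safe t x) : 1 ≤ ‖x.fst‖ := by
  have hb := t_bounds ht ht0
  obtain ⟨h1, h2 | h2⟩ := h
  · have h3 : (1 : ℝ) ^ 2 ≤ ‖x.fst‖ ^ 2 := by linarith
    exact (abs_le_of_sq_le_sq' h3 (norm_nonneg _)).2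
  · linarith

/-- the tripod relation: `r` is far away from the geodesic between `p` and `q` -/
def Tri (p q r : L1) : Prop := ‖p - q‖ + 2 ≤ ‖p - r‖ + ‖q - r‖

/-- one of the three points is the endpoint of a long branch -/
def Trip (p q r : L1) : Prop := Tri p q r ∨ Tri p r q ∨ Tri q r p

/-- states of the construction -/
structure Good (t : ℝ) (M : ℕ) (Λ : AddSubgroup (WithLp 2 (L1 × H))) : Prop where
  supp : ∀ l ∈ Λ, ∀ i, M ≤ i → l.fst i = 0
  safe : ∀ l ∈ Λ, l ≠ 0 → Safe t l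
  trip : ∀ p ∈ Λ, ∀ q ∈ Λ, ∀ r ∈ Λ, p ≠ q → p ≠ r → q ≠ r → Trip p.fst q.fst r.fst

theorem Good.mono {t : ℝ} {M M' : ℕ} {Λ : AddSubgroup (WithLp 2 (L1 × H))} (h : Good t M Λ)
    (hM : M ≤ M') : Good t M' Λ :=
  ⟨fun l hl i hi => h.supp l hl i (hM.trans hi), h.safe, h.trip⟩

theorem good_bot (t : ℝ) : Good (H := H) t 0 ⊥ := by
  refine ⟨fun l hl i _ => ?_, fun l hl h => ?_, fun p hp q hq r hr hpq => ?_⟩
  · rw [AddSubgroup.mem_bot] at hl
    rw [hl]; rfl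
  · exact absurd (AddSubgroup.mem_bot.1 hl) h
  · rw [AddSubgroup.mem_bot] at hp hq
    exact absurd (hp.trans hq.symm) hpq

/-- strict extremality in the new coordinate gives the tripod relation -/
theorem tri_of_ext {a : ℝ} (ha : 1 ≤ a) {P Q R z₁ z₂ z₃ : L1} {k₁ k₂ k₃ : ℤ}
    (h12 : ‖P - Q‖ = ‖z₁ - z₂‖ + |(k₁ - k₂ : ℝ)| * a)
    (h13 : ‖P - R‖ = ‖z₁ - z₃‖ + |(k₁ - k₃ : ℝ)| * a)
    (h23 : ‖Q - R‖ = ‖z₂ - z₃‖ + |(k₂ - k₃ : ℝ)| * a)
    (hk : (k₁ < k₃ ∧ k₂ < k₃) ∨ (k₃ < k₁ ∧ k₃ < k₂)) : Tri P Q R := by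
  unfold Tri
  rw [h12, h13, h23]
  have hz : ‖z₁ - z₂‖ ≤ ‖z₁ - z₃‖ + ‖z₂ - z₃‖ := by
    have : z₁ - z₂ = (z₁ - z₃) - (z₂ - z₃) := by abel
    rw [this]; exact norm_sub_le _ _
  have hkk : |(k₁ - k₂ : ℝ)| + 2 ≤ |(k₁ - k₃ : ℝ)| + |(k₂ - k₃ : ℝ)| := by
    have hz' : |k₁ - k₂| + 2 ≤ |k₁ - k₃| + |k₂ - k₃| := by
      rcases hk with ⟨h1, h2⟩ | ⟨h1, h2⟩
      · rw [abs_of_neg (show k₁ - k₃ < 0 by omega), abs_of_neg (show k₂ - k₃ < 0 by omega)]
        rcases abs_cases (k₁ - k₂) with h | h <;> omega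
      · rw [abs_of_pos (show 0 < k₁ - k₃ by omega), abs_of_pos (show 0 < k₂ - k₃ by omega)]
        rcases abs_cases (k₁ - k₂) with h | h <;> omega
    have := (Int.cast_le (R := ℝ)).2 hz'
    push_cast at this
    exact this
  have := mul_le_mul_of_nonneg_right hkk (by linarith : (0 : ℝ) ≤ a)
  nlinarith

theorem Tri.symm {P Q R : L1} (h : Tri P Q R) : Tri Q P R := by
  unfold Tri at *
  rw [norm_sub_rev Q P]; linarith

theorem step {t : ℝ} (ht : t ^ 2 = 1 / 3) (ht0 : 0 < t) {M : ℕ}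
    {Λ : AddSubgroup (WithLp 2 (L1 × H))}
    (hg : Good t M Λ) (x : WithLp 2 (L1 × H)) (hx : ∀ i, M ≤ i → x.fst i = 0) :
    ∃ Λ' : AddSubgroup (WithLp 2 (L1 × H)), Λ ≤ Λ' ∧ Good t (M + 1) Λ' ∧
      ∃ l ∈ Λ', ‖x - l‖ ≤ 2 * t := by
  by_cases hcov : ∃ l ∈ Λ, ‖x - l‖ ≤ 2 * t
  · exact ⟨Λ, le_rfl, hg.mono (Nat.le_succ M), hcov⟩
  push Not at hcov
  have htri : ∀ p q : WithLp 2 (L1 × H),
      ‖p.fst - q.fst‖ ≤ ‖p.fst - x.fst‖ + ‖q.fst - x.fst‖ := by
    intro p q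
    have e : p.fst - q.fst = (p.fst - x.fst) - (q.fst - x.fst) := by abel
    rw [e]; exact norm_sub_le _ _
  obtain ⟨a, b, ha, hab, hall⟩ := respH (ι := Λ) ht ht0
    (fun l => ‖(l : WithLp 2 (L1 × H)).fst - x.fst‖)
    (fun l => (l : WithLp 2 (L1 × H)).snd - x.snd)
    (fun l => norm_nonneg _)
    (fun l => by
      have h1 := hcov l l.2
      have h2 : (2 * t) ^ 2 < ‖x - l‖ ^ 2 := pow_lt_pow_left₀ h1 (by linarith) (by norm_num)
      rw [WithLp.prod_norm_sq_eq_of_L2, WithLp.sub_fst, WithLp.sub_snd, mul_pow, ht,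
        norm_sub_rev, norm_sub_rev x.snd] at h2
      linarith)
    (fun i j hij => by
      have hne : (i : WithLp 2 (L1 × H)) - j ≠ 0 := fun h => hij (Subtype.ext (sub_eq_zero.1 h))
      obtain ⟨h1, h2⟩ := hg.safe _ (Λ.sub_mem i.2 j.2) hne
      rw [WithLp.sub_fst, WithLp.sub_snd] at h1 h2
      have h3 := htri i j
      have h4 : ‖(i : WithLp 2 (L1 × H)).fst - (j : WithLp 2 (L1 × H)).fst‖ ^ 2 ≤
          (‖(i : WithLp 2 (L1 × H)).fst - x.fst‖ + ‖(j : WithLp 2 (L1 × H)).fst - x.fst‖) ^ 2 :=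
        pow_le_pow_left₀ (norm_nonneg _) h3 2
      have e2 : (i : WithLp 2 (L1 × H)).snd - x.snd - ((j : WithLp 2 (L1 × H)).snd - x.snd) =
          (i : WithLp 2 (L1 × H)).snd - (j : WithLp 2 (L1 × H)).snd := by
        abel
      simp only [e2]
      refine ⟨by linarith, ?_⟩
      rcases h2 with h2 | h2
      · exact Or.inl h2
      · exact Or.inr (h2.trans h3))
    (fun i j k hij hik hjk => by
      have hne : ∀ u w : Λ, u ≠ w → 1 ≤ ‖(u : WithLp 2 (L1 × H)).fst -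
          (w : WithLp 2 (L1 × H)).fst‖ := by
        intro u w huw
        have hne : (u : WithLp 2 (L1 × H)) - w ≠ 0 :=
          fun h => huw (Subtype.ext (sub_eq_zero.1 h))
        have h1 := (hg.safe _ (Λ.sub_mem u.2 w.2) hne).one_le ht ht0
        rwa [WithLp.sub_fst] at h1
      have hT := hg.trip i i.2 j j.2 k k.2 (fun h => hij (Subtype.ext h))
        (fun h => hik (Subtype.ext h)) (fun h => hjk (Subtype.ext h))
      rcases hT with h | h | h
      · left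
        unfold Tri at h
        linarith [hne i j hij, htri i k, htri j k]
      · right; left
        unfold Tri at h
        have := htri k j
        linarith [hne i k hik, htri i j, htri k j]
      · right; right
        unfold Tri at h
        linarith [hne j k hjk, htri j i, htri k i])
  set v : WithLp 2 (L1 × H) := x + WithLp.toLp 2 (lp.single 1 M a, b) with hv
  have hvf : v.fst = x.fst + lp.single 1 M a := rfl
  have hvs : v.snd = x.snd + b := rfl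
  have ha0 : 0 ≤ a := by linarith
  -- norms of y + v
  have hplus : ∀ y ∈ Λ, Safe t (y + v) := by
    intro y hy
    have h1 := hall ⟨-y, Λ.neg_mem hy⟩
    simp only [WithLp.neg_fst, WithLp.neg_snd] at h1
    have e1 : ‖(y + v).fst‖ = a + ‖-y.fst - x.fst‖ := by
      have e : (y + v).fst = (y.fst + x.fst) + lp.single 1 M a := by
        rw [WithLp.add_fst, hvf]; abel
      rw [e, norm_fresh _ _ _ _, abs_of_nonneg ha0, add_comm]
      · congr 1
        rw [← norm_neg]; congr 1; abel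
      · rw [lp.coeFn_add, Pi.add_apply, hg.supp y hy M le_rfl, hx M le_rfl, add_zero]
    have e2 : (y + v).snd = b - (-y.snd - x.snd) := by
      rw [WithLp.add_snd, hvs]; abel
    unfold Safe
    rw [e1, e2]
    exact h1
  -- general distance formula
  have hdist : ∀ y ∈ Λ, ∀ y' ∈ Λ, ∀ k k' : ℤ,
      ‖(y + k • v).fst - (y' + k' • v).fst‖ =
        ‖(y.fst + k • x.fst) - (y'.fst + k' • x.fst)‖ + |(k - k' : ℝ)| * a := by
    intro y hy y' hy' k k'
    have e : (y + k • v).fst - (y' + k' • v).fst =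
        ((y.fst + k • x.fst) - (y'.fst + k' • x.fst)) + lp.single 1 M ((k - k' : ℝ) * a) := by
      have h4 : (y + k • v).fst = y.fst + k • (x.fst + lp.single 1 M a) := rfl
      have h5 : (y' + k' • v).fst = y'.fst + k' • (x.fst + lp.single 1 M a) := rfl
      have h6 : (lp.single 1 M ((k - k' : ℝ) * a) : L1) =
          k • (lp.single 1 M a : L1) - k' • (lp.single 1 M a : L1) := by
        rw [sub_mul, lp.single_sub]
        congr 1
        · rw [← zsmul_eq_mul]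
          exact map_zsmul (lp.singleAddMonoidHom (E := fun _ : ℕ => ℝ) 1 M) k a
        · rw [← zsmul_eq_mul]
          exact map_zsmul (lp.singleAddMonoidHom (E := fun _ : ℕ => ℝ) 1 M) k' a
      rw [h4, h5, h6, smul_add, smul_add]; abel
    rw [e, norm_fresh, abs_mul, abs_of_nonneg ha0]
    have h7 : ∀ (k : ℤ), (k • x.fst : L1) M = 0 := by
      intro k
      have : (k • x.fst : L1) M = k • (x.fst M) := rfl
      rw [this, hx M le_rfl, smul_zero]
    rw [lp.coeFn_sub, Pi.sub_apply, lp.coeFn_add, lp.coeFn_add, Pi.add_apply, Pi.add_apply,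
      h7, h7, hg.supp y hy M le_rfl, hg.supp y' hy' M le_rfl]
    simp
  refine ⟨Λ ⊔ AddSubgroup.zmultiples v, le_sup_left, ⟨?_, ?_, ?_⟩, v, ?_, ?_⟩
  · intro l hl i hi
    obtain ⟨y, hy, z, hz, rfl⟩ := AddSubgroup.mem_sup.1 hl
    obtain ⟨k, rfl⟩ := AddSubgroup.mem_zmultiples_iff.1 hz
    have h1 : y.fst i = 0 := hg.supp y hy i (by omega)
    have h2 : x.fst i = 0 := hx i (by omega)
    have h3 : (lp.single 1 M a : L1) i = 0 := lp.single_apply_ne _ _ _ (by omega)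
    have h4 : (y + k • v).fst = y.fst + k • (x.fst + lp.single 1 M a) := rfl
    rw [h4, lp.coeFn_add, Pi.add_apply, h1, zero_add]
    have h5 : (k • (x.fst + lp.single 1 M a : L1)) i = k • ((x.fst + lp.single 1 M a : L1) i) := rfl
    rw [h5, lp.coeFn_add, Pi.add_apply, h2, h3, add_zero, smul_zero]
  · intro l hl hl0
    obtain ⟨y, hy, z, hz, rfl⟩ := AddSubgroup.mem_sup.1 hl
    obtain ⟨k, rfl⟩ := AddSubgroup.mem_zmultiples_iff.1 hz
    by_cases hk : k.natAbs ≤ 1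
    · have hk3 : k = 0 ∨ k = 1 ∨ k = -1 := by omega
      rcases hk3 with rfl | rfl | rfl
      · rw [zero_smul, add_zero] at hl0 ⊢
        exact hg.safe y hy hl0
      · rw [one_smul]
        exact hplus y hy
      · have h1 := (hplus (-y) (Λ.neg_mem hy)).neg
        have e : -(-y + v) = y + (-1 : ℤ) • v := by
          rw [neg_smul, one_smul]; abel
        rwa [e] at h1
    · have hk2 : (2 : ℝ) ≤ |(k : ℝ)| := by
        have : (2 : ℤ) ≤ |k| := by
          rw [Int.abs_eq_natAbs]; omega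
        have h3 : ((2 : ℤ) : ℝ) ≤ ((|k| : ℤ) : ℝ) := Int.cast_le.2 this
        rw [Int.cast_abs] at h3
        simpa using h3
      have hbig : 2 ≤ ‖(y + k • v).fst‖ := by
        have h1 := hdist y hy 0 Λ.zero_mem k 0
        have e : (0 + (0 : ℤ) • v : WithLp 2 (L1 × H)).fst = 0 := by
          rw [zero_smul, add_zero]; rfl
        rw [e, sub_zero] at h1
        rw [h1]
        have h2 : |(k : ℝ) - ((0 : ℤ) : ℝ)| = |(k : ℝ)| := by simp
        rw [h2]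
        have := norm_nonneg (y.fst + k • x.fst - ((0 : WithLp 2 (L1 × H)).fst + (0 : ℤ) • x.fst))
        nlinarith
      have hb := t_bounds ht ht0
      refine ⟨?_, Or.inr (by linarith)⟩
      have : (2 : ℝ) ^ 2 ≤ ‖(y + k • v).fst‖ ^ 2 := pow_le_pow_left₀ (by norm_num) hbig 2
      linarith [sq_nonneg ‖(y + k • v).snd‖]
  · intro p hp q hq r hr hpq hpr hqr
    obtain ⟨y₁, hy₁, z₁, hz₁, rfl⟩ := AddSubgroup.mem_sup.1 hp
    obtain ⟨k₁, rfl⟩ := AddSubgroup.mem_zmultiples_iff.1 hz₁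
    obtain ⟨y₂, hy₂, z₂, hz₂, rfl⟩ := AddSubgroup.mem_sup.1 hq
    obtain ⟨k₂, rfl⟩ := AddSubgroup.mem_zmultiples_iff.1 hz₂
    obtain ⟨y₃, hy₃, z₃, hz₃, rfl⟩ := AddSubgroup.mem_sup.1 hr
    obtain ⟨k₃, rfl⟩ := AddSubgroup.mem_zmultiples_iff.1 hz₃
    have h12 := hdist y₁ hy₁ y₂ hy₂ k₁ k₂
    have h13 := hdist y₁ hy₁ y₃ hy₃ k₁ k₃
    have h23 := hdist y₂ hy₂ y₃ hy₃ k₂ k₃
    have h21 := hdist y₂ hy₂ y₁ hy₁ k₂ k₁
    have h31 := hdist y₃ hy₃ y₁ hy₁ k₃ k₁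
    have h32 := hdist y₃ hy₃ y₂ hy₂ k₃ k₂
    have hcases : ((k₁ < k₃ ∧ k₂ < k₃) ∨ (k₃ < k₁ ∧ k₃ < k₂)) ∨
        ((k₁ < k₂ ∧ k₃ < k₂) ∨ (k₂ < k₁ ∧ k₂ < k₃)) ∨
        ((k₂ < k₁ ∧ k₃ < k₁) ∨ (k₁ < k₂ ∧ k₁ < k₃)) ∨ (k₁ = k₂ ∧ k₁ = k₃) := by omega
    rcases hcases with h | h | h | ⟨h, h'⟩
    · exact Or.inl (tri_of_ext ha h12 h13 h23 h)
    · exact Or.inr (Or.inl (tri_of_ext ha h13 h12 h32 h))
    · exact Or.inr (Or.inr (tri_of_ext ha h23 h21 h31 h))
    · subst h; subst h'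
      have hne12 : y₁ ≠ y₂ := fun h => hpq (by rw [h])
      have hne13 : y₁ ≠ y₃ := fun h => hpr (by rw [h])
      have hne23 : y₂ ≠ y₃ := fun h => hqr (by rw [h])
      have hT := hg.trip y₁ hy₁ y₂ hy₂ y₃ hy₃ hne12 hne13 hne23
      have e : ∀ u w : WithLp 2 (L1 × H), (u + k₁ • v).fst - (w + k₁ • v).fst = u.fst - w.fst := by
        intro u w
        rw [WithLp.add_fst, WithLp.add_fst]; abel
      unfold Trip Tri at hT ⊢
      simp only [e]
      exact hT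
  · exact (le_sup_right : AddSubgroup.zmultiples v ≤ _) (AddSubgroup.mem_zmultiples v)
  · have h1 : ‖x - v‖ ^ 2 = (2 * t) ^ 2 := by
      rw [hv, WithLp.prod_norm_sq_eq_of_L2, mul_pow, ht]
      have e1 : (x - (x + WithLp.toLp 2 (lp.single 1 M a, b))).fst = - (lp.single 1 M a : L1) := by
        rw [sub_add_cancel_left]; rfl
      have e2 : (x - (x + WithLp.toLp 2 ((lp.single 1 M a : L1), b))).snd = - b := by
        rw [sub_add_cancel_left]; rfl
      rw [e1, e2, norm_neg, norm_neg, lp.norm_single (by norm_num), Real.norm_eq_abs,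
        sq_abs, hab]
      norm_num
    exact (abs_le_of_sq_le_sq' h1.le (by linarith)).2

end Pool.Agent.Q99.PC
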